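import Pool.Agent.TH467.OC.Two

/-!
# `S_4`-pairs
-/

set_option autoImplicit false
set_option linter.unusedSectionVars false

namespace Pool.Agent.TH467.OC

open Finset Pool.Agent.H249R2.PM

variable {V E : Type} [Fintype V] [DecidableEq V] [Fintype E] [DecidableEq E]

/-- `X` is the vertex set of a circuit of odd length `n` with the vertices `f 0, ..., f (n - 1)`, in
this order, the edges of which are in `S` -/
def OddCirc (a b : E → V) (S : Finset E) (X : Finset V) : Prop :=
  ∃ (n : ℕ) (f : ℕ → V), Odd n ∧ f n = f 0 ∧ (∀ i j, i < j → j < n → f i ≠ f j) ∧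
    X = (range n).image f ∧
    ∀ i < n, ∃ e ∈ S, (a e = f i ∧ b e = f (i + 1)) ∨ (b e = f i ∧ a e = f (i + 1))

/-- the edge set `S` is bipartite: there is a set `A` of vertices such that every edge in `S` has exactly
one end in `A` -/
def Bip (a b : E → V) (S : Finset E) : Prop := ∃ A : Set V, ∀ e ∈ S, ¬ (a e ∈ A ↔ b e ∈ A)

/-- closed sequences -/
def Clo (a b : E → V) (S : Finset E) (n : ℕ) (f : ℕ → V) : Prop :=
  f n = f 0 ∧ ∀ i < n, ∃ e ∈ S, (a e = f i ∧ b e = f (i + 1)) ∨ (b e = f i ∧ a e = f (i + 1))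

theorem exists_circ {a b : E → V} {S : Finset E} (h : ∃ n f, Odd n ∧ Clo a b S n f) :
    ∃ X, OddCirc a b S X := by
  classical
  have h' : ∃ n, ∃ f, Odd n ∧ Clo a b S n f := by
    obtain ⟨n, f, h⟩ := h
    exact ⟨n, f, h⟩
  obtain ⟨f, hodd, hclo, hadj⟩ := Nat.find_spec h'
  set n := Nat.find h' with hn
  have hmin : ∀ m, m < n → ∀ g, Odd m → ¬ Clo a b S m g := by
    intro m hm g h1 h2
    exact Nat.find_min h' hm ⟨g, h1, h2⟩
  refine ⟨(range n).image f, n, f, hodd, hclo, ?_, rfl, hadj⟩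
  intro i j hij hjn heq
  -- the two parts
  rcases Nat.even_or_odd (j - i) with hev | hod
  · -- the outer part is odd
    have h1 : Odd (n - (j - i)) := by
      obtain ⟨k, hk⟩ := hodd
      obtain ⟨l, hl⟩ := hev
      exact ⟨k - l, by omega⟩
    apply hmin (n - (j - i)) (by omega) (fun t => if t ≤ i then f t else f (t + (j - i))) h1
    constructor
    · have h2 : ¬ n - (j - i) ≤ i := by omega
      have h3 : n - (j - i) + (j - i) = n := by omega
      simp only [if_neg h2, h3, Nat.zero_le, if_true]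
      exact hclo
    · intro t ht
      by_cases h2 : t + 1 ≤ i
      · have h3 : t ≤ i := by omega
        simp only [if_pos h2, if_pos h3]
        exact hadj t (by omega)
      · by_cases h3 : t ≤ i
        · have h4 : t = i := by omega
          subst h4
          have h5 : t + 1 + (j - t) = j + 1 := by omega
          simp only [if_neg h2, if_pos h3, h5]
          rw [heq]
          exact hadj j hjn
        · have h5 : t + 1 + (j - i) = t + (j - i) + 1 := by omega
          simp only [if_neg h2, if_neg h3, h5]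
          exact hadj (t + (j - i)) (by omega)
  · apply hmin (j - i) (by omega) (fun t => f (i + t)) hod
    constructor
    · have h2 : i + (j - i) = j := by omega
      simp only [h2, Nat.add_zero]
      exact heq.symm
    · intro t ht
      exact hadj (i + t) (by omega)

/-- the simple graph of the edges in `S` -/
def SG (a b : E → V) (S : Finset E) : SimpleGraph V where
  Adj u v := u ≠ v ∧ ∃ e ∈ S, (a e = u ∧ b e = v) ∨ (b e = u ∧ a e = v)
  symm := ⟨fun _ _ h => ⟨h.1.symm, h.2.imp fun _ he => ⟨he.1, he.2.elim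
    (fun h => Or.inr ⟨h.2, h.1⟩) (fun h => Or.inl ⟨h.2, h.1⟩)⟩⟩⟩
  loopless := ⟨fun _ h => h.1 rfl⟩

theorem bip_or {a b : E → V} (hl : ∀ e, a e ≠ b e) (S : Finset E)
    (h : ∀ X, ¬ OddCirc a b S X) : Bip a b S := by
  classical
  have h1 : (SG a b S).Colorable 2 := by
    rw [SimpleGraph.two_colorable_iff_forall_loop_even]
    intro u w
    by_contra hodd
    rw [Nat.not_even_iff_odd] at hodd
    obtain ⟨X, hX⟩ := exists_circ (a := a) (b := b) (S := S) ⟨w.length, w.getVert, hodd, by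
      constructor
      · rw [SimpleGraph.Walk.getVert_length, SimpleGraph.Walk.getVert_zero]
      · intro i hi
        exact (w.adj_getVert_succ hi).2⟩
    exact h X hX
  obtain ⟨c⟩ := h1
  refine ⟨{v | c v = 0}, fun e he hiff => ?_⟩
  have hadj : (SG a b S).Adj (a e) (b e) := ⟨hl e, e, he, Or.inl ⟨rfl, rfl⟩⟩
  have h2 := c.valid hadj
  simp only [Set.mem_setOf_eq] at hiff
  have h3 : ∀ x y : Fin 2, (x = 0 ↔ y = 0) → x = y := by decide
  exact h2 (h3 _ _ hiff)

/-- an odd circuit outside of `M₁ ∪ M₂` -/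
theorem circ_cut {a b : E → V} (hG : RG 3 a b) {M₁ M₂ : Finset E} (h1 : PM a b M₁)
    (h2 : PM a b M₂) {X : Finset V} (hX : OddCirc a b (M₁ ∪ M₂)ᶜ X) :
    Odd X.card ∧ delta a b X ⊆ M₁ ∩ M₂ := by
  classical
  obtain ⟨n, f, hodd, hclo, hinj, rfl, hadj⟩ := hX
  have hcard : ((range n).image f).card = n := by
    rw [card_image_of_injOn, card_range]
    intro i hi j hj hij
    simp only [coe_range, Set.mem_Iio] at hi hj
    rcases lt_trichotomy i j with h | h | h
    · exact absurd hij (hinj i j h hj)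
    · exact h
    · exact absurd hij.symm (hinj j i h hi)
  refine ⟨by rw [hcard]; exact hodd, ?_⟩
  -- three vertices at least
  have hn0 : 0 < n := hodd.pos
  have hn1 : n ≠ 1 := by
    rintro rfl
    obtain ⟨e, -, he | he⟩ := hadj 0 one_pos
    · exact hG.noloop e (he.1.trans (he.2.trans hclo).symm)
    · exact hG.noloop e ((he.2.trans hclo).trans he.1.symm)
  have hn3 : 3 ≤ n := by
    obtain ⟨k, hk⟩ := hodd
    omega
  -- every vertex of the circuit has two edges of the circuit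
  have hmemf : ∀ i, i ≤ n → f i ∈ (range n).image f := by
    intro i hi
    rcases Nat.lt_or_ge i n with h | h
    · exact mem_image_of_mem f (mem_range.2 h)
    · have : i = n := le_antisymm hi h
      rw [this, hclo]
      exact mem_image_of_mem f (mem_range.2 hn0)
  have htwo : ∀ i < n, ∃ e₁ ∈ (M₁ ∪ M₂)ᶜ, ∃ e₂ ∈ (M₁ ∪ M₂)ᶜ, e₁ ≠ e₂ ∧
      (a e₁ = f i ∨ b e₁ = f i) ∧ (a e₂ = f i ∨ b e₂ = f i) ∧
      e₁ ∉ delta a b ((range n).image f) ∧ e₂ ∉ delta a b ((range n).image f) := by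
    have hnot : ∀ i < n, ∀ e, ((a e = f i ∧ b e = f (i + 1)) ∨ (b e = f i ∧ a e = f (i + 1))) →
        e ∉ delta a b ((range n).image f) := by
      intro i hi e he hd
      unfold delta at hd
      rw [mem_filter] at hd
      apply hd.2
      have h3 := hmemf i hi.le
      have h4 := hmemf (i + 1) hi
      rcases he with ⟨h5, h6⟩ | ⟨h5, h6⟩ <;> rw [h5, h6] <;> exact ⟨fun _ => by assumption, fun _ => by assumption⟩
    intro i hi
    obtain ⟨e₂, he₂, h4⟩ := hadj i hi
    -- the previous edge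
    obtain ⟨p, hp, hpi, hpne⟩ : ∃ p, p < n ∧ f (p + 1) = f i ∧ f p ≠ f (i + 1) := by
      rcases Nat.eq_zero_or_pos i with h0 | h0
      · subst h0
        refine ⟨n - 1, by omega, ?_, ?_⟩
        · rw [Nat.sub_add_cancel hn0, hclo]
        · exact (hinj 1 (n - 1) (by omega) (by omega)).symm
      · refine ⟨i - 1, by omega, by rw [Nat.sub_add_cancel h0], ?_⟩
        rcases Nat.lt_or_ge (i + 1) n with h | h
        · exact hinj (i - 1) (i + 1) (by omega) h
        · have : i + 1 = n := by omega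
          rw [this, hclo]
          exact (hinj 0 (i - 1) (by omega) (by omega)).symm
    obtain ⟨e₁, he₁, h3⟩ := hadj p hp
    refine ⟨e₁, he₁, e₂, he₂, ?_, ?_, ?_, hnot p hp e₁ h3, hnot i hi e₂ h4⟩
    · rintro rfl
      rw [hpi] at h3
      have hne := hG.noloop e₁
      rcases h3 with ⟨h5, h6⟩ | ⟨h5, h6⟩ <;> rcases h4 with ⟨h7, h8⟩ | ⟨h7, h8⟩
      · exact hne (h7.trans h6.symm)
      · exact hpne (h5.symm.trans h8)
      · exact hpne (h5.symm.trans h8)
      · exact hne (h6.trans h7.symm)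
    · rcases h3 with ⟨h5, h6⟩ | ⟨h5, h6⟩
      · exact Or.inr (h6.trans hpi)
      · exact Or.inl (h6.trans hpi)
    · rcases h4 with ⟨h5, h6⟩ | ⟨h5, h6⟩
      · exact Or.inl h5
      · exact Or.inr h5
  -- all other edges at a vertex of the circuit are in both matchings
  have hin : ∀ v ∈ (range n).image f, ∀ e, (a e = v ∨ b e = v) →
      e ∈ delta a b ((range n).image f) → e ∈ M₁ ∩ M₂ := by
    intro v hv e hev hed
    obtain ⟨i, hi, rfl⟩ := mem_image.1 hv
    rw [mem_range] at hi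
    obtain ⟨e₁, he₁, e₂, he₂, hne, hv1, hv2, hd1, hd2⟩ := htwo i hi
    have hfe : ∀ M, PM a b M → (∀ e ∈ (M₁ ∪ M₂)ᶜ, e ∉ M) → e ∈ M := by
      intro M hM hdis
      obtain ⟨g, ⟨hgM, hgv⟩, -⟩ := hM (f i)
      have h5 : e ≠ e₁ := fun h => hd1 (h ▸ hed)
      have h6 : e ≠ e₂ := fun h => hd2 (h ▸ hed)
      have h7 : g ≠ e₁ := fun h => hdis e₁ he₁ (h ▸ hgM)
      have h8 : g ≠ e₂ := fun h => hdis e₂ he₂ (h ▸ hgM)
      by_contra h9
      have h10 : e ≠ g := fun h => h9 (h ▸ hgM)
      have h11 : ({e, g, e₁, e₂} : Finset E) ⊆ univ.filter (fun e => a e = f i ∨ b e = f i) := by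
        intro z hz
        simp only [mem_insert, mem_singleton] at hz
        rw [mem_filter]
        rcases hz with rfl | rfl | rfl | rfl
        · exact ⟨mem_univ _, hev⟩
        · exact ⟨mem_univ _, hgv⟩
        · exact ⟨mem_univ _, hv1⟩
        · exact ⟨mem_univ _, hv2⟩
      have h12 := card_le_card h11
      rw [hG.reg, card_insert_of_notMem, card_insert_of_notMem, card_pair hne] at h12
      · omega
      · simp [h7, h8]
      · simp [h10, h5, h6]
    rw [mem_inter]
    constructor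
    · exact hfe M₁ h1 fun e he h => (mem_compl.1 he) (mem_union_left _ h)
    · exact hfe M₂ h2 fun e he h => (mem_compl.1 he) (mem_union_right _ h)
  intro e he
  have he' := he
  unfold delta at he'
  rw [mem_filter] at he'
  by_cases ha : a e ∈ (range n).image f
  · exact hin _ ha e (Or.inl rfl) he
  · have hb : b e ∈ (range n).image f := by
      by_contra hb
      exact he'.2 ⟨fun h => absurd h ha, fun h => absurd h hb⟩
    exact hin _ hb e (Or.inr rfl) he

open Classical in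
/-- the cuts `δ(X)`, `X` the vertex set of an odd circuit, which are contained in a perfect matching -/
noncomputable def circCuts (a b : E → V) : Finset (Finset E) :=
  univ.filter fun D => (∃ X, OddCirc a b univ X ∧ delta a b X = D) ∧ ∃ M, PM a b M ∧ D ⊆ M

theorem mem_circCuts {a b : E → V} {D : Finset E} : D ∈ circCuts a b ↔
    (∃ X, OddCirc a b univ X ∧ delta a b X = D) ∧ ∃ M, PM a b M ∧ D ⊆ M := by
  classical
  unfold circCuts
  rw [mem_filter]
  simp

theorem OddCirc.mono {a b : E → V} {S S' : Finset E} (h : S ⊆ S') {X : Finset V}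
    (hX : OddCirc a b S X) : OddCirc a b S' X := by
  obtain ⟨n, f, h1, h2, h3, h4, h5⟩ := hX
  refine ⟨n, f, h1, h2, h3, h4, fun i hi => ?_⟩
  obtain ⟨e, he, h6⟩ := h5 i hi
  exact ⟨e, h he, h6⟩

theorem OddCirc.odd {a b : E → V} {S : Finset E} {X : Finset V}
    (hX : OddCirc a b S X) : Odd X.card := by
  classical
  obtain ⟨n, f, hodd, hclo, hinj, rfl, hadj⟩ := hX
  rw [card_image_of_injOn, card_range]
  · exact hodd
  · intro i hi j hj hij
    simp only [coe_range, Set.mem_Iio] at hi hj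
    rcases lt_trichotomy i j with h | h | h
    · exact absurd hij (hinj i j h hj)
    · exact h
    · exact absurd hij.symm (hinj j i h hi)

/-- two perfect matchings, the intersection of which contains no cut in the family `F` of odd cuts -/
theorem two_pm_fam {a b : E → V} (hG : RG 3 a b) (F : Finset (Finset E))
    (hF : ∀ D ∈ F, OddCut a b D)
    (h : ∑ D ∈ F, (((D.card : ℝ) - 3) / (D.card - 1)) ^ 2 < 9) :
    ∃ M₁ M₂, PM a b M₁ ∧ PM a b M₂ ∧ ∀ D ∈ F, ¬ D ⊆ M₁ ∩ M₂ := by
  obtain ⟨M₁, hM₁, hle₁⟩ := avg1 (by norm_num) hG F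
    (fun D => ((D.card : ℝ) - 3) / ((D.card : ℝ) - 1) ^ 2)
  obtain ⟨M₂, hM₂, hle₂⟩ := avg1 (by norm_num) hG F
    (fun D => if (M₁ ∩ D).card = D.card then 1 / ((D.card : ℝ) - 1) else 0)
  refine ⟨M₁, M₂, hM₁, hM₂, fun D₀ h4 h2 => ?_⟩
  have hcast : ((3 : ℕ) : ℝ) = 3 := by norm_num
  rw [hcast] at hle₁ hle₂
  -- facts on all cuts of the family
  have hc : ∀ D ∈ F, (3 : ℝ) ≤ D.card := by
    intro D hD
    exact_mod_cast (card_cut hG (hF D hD)).1
  have hm₁ : ∀ D ∈ F, (1 : ℝ) ≤ (M₁ ∩ D).card := by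
    intro D hD
    exact_mod_cast (inter_odd hG hM₁ (hF D hD)).pos
  have hm₂ : ∀ D ∈ F, (1 : ℝ) ≤ (M₂ ∩ D).card := by
    intro D hD
    exact_mod_cast (inter_odd hG hM₂ (hF D hD)).pos
  have e1 : ∑ D ∈ F, ((D.card : ℝ) - 3) / ((D.card : ℝ) - 1) ^ 2 * ((D.card : ℝ) - 3)
      = ∑ D ∈ F, (((D.card : ℝ) - 3) / (D.card - 1)) ^ 2 := by
    refine sum_congr rfl fun D _ => ?_
    rw [div_pow]; ring
  rw [e1] at hle₁
  have e2 : ∑ D ∈ F, (if (M₁ ∩ D).card = D.card then 1 / ((D.card : ℝ) - 1) else 0)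
        * ((D.card : ℝ) - 3)
      ≤ ∑ D ∈ F, ((D.card : ℝ) - 3) / ((D.card : ℝ) - 1) ^ 2
        * (((M₁ ∩ D).card : ℝ) - 1) := by
    refine sum_le_sum fun D hD => ?_
    have h5 := hc D hD
    have h6 := hm₁ D hD
    have h7 : (0 : ℝ) < (D.card : ℝ) - 1 := by linarith
    split_ifs with h8
    · rw [h8]
      apply le_of_eq
      field_simp
    · rw [zero_mul]
      exact mul_nonneg (div_nonneg (by linarith) (by positivity)) (by linarith)
  have hnn : ∀ D ∈ F, 0 ≤ (if (M₁ ∩ D).card = D.card then 1 / ((D.card : ℝ) - 1) else 0)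
      * (((M₂ ∩ D).card : ℝ) - 1) := by
    intro D hD
    have h5 := hc D hD
    have h6 := hm₂ D hD
    have h7 : (0 : ℝ) < (D.card : ℝ) - 1 := by linarith
    refine mul_nonneg ?_ (by linarith)
    split_ifs
    · positivity
    · exact le_rfl
  have h5 := single_le_sum hnn h4
  have h6 : (if (M₁ ∩ D₀).card = D₀.card then 1 / ((D₀.card : ℝ) - 1) else 0)
      * (((M₂ ∩ D₀).card : ℝ) - 1) = 1 := by
    rw [inter_eq_right.2 (h2.trans inter_subset_left), inter_eq_right.2 (h2.trans inter_subset_right),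
      if_pos rfl]
    refine one_div_mul_cancel ?_
    have := hc D₀ h4
    intro h7
    linarith
  have h5' : 1 ≤ ∑ D ∈ F,
      (if (M₁ ∩ D).card = D.card then 1 / ((D.card : ℝ) - 1) else 0)
      * (((M₂ ∩ D).card : ℝ) - 1) := le_of_eq_of_le h6.symm h5
  linarith

/-- **`S_4`-pairs.** -/
theorem s_four {a b : E → V} (hG : RG 3 a b)
    (h : ∑ D ∈ circCuts a b, (((D.card : ℝ) - 3) / (D.card - 1)) ^ 2 < 9) :
    ∃ M₁ M₂, PM a b M₁ ∧ PM a b M₂ ∧ Bip a b (M₁ ∪ M₂)ᶜ := by
  obtain ⟨M₁, M₂, h1, h2, h3⟩ := two_pm_fam hG (circCuts a b) (fun D hD => by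
    obtain ⟨⟨X, hX, rfl⟩, -⟩ := mem_circCuts.1 hD
    exact ⟨X, hX.odd, rfl⟩) h
  refine ⟨M₁, M₂, h1, h2, bip_or hG.noloop _ fun X hX => ?_⟩
  obtain ⟨-, hsub⟩ := circ_cut hG h1 h2 hX
  exact h3 _ (mem_circCuts.2 ⟨⟨X, hX.mono (subset_univ _), rfl⟩, M₁, h1,
    hsub.trans inter_subset_left⟩) hsub

end Pool.Agent.TH467.OC
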