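import Pool.Agent.TH467.OC.Two

/-!
# Numbers of bad cuts
-/

set_option autoImplicit false
set_option linter.unusedSectionVars false

namespace Pool.Agent.TH467.OC

open Finset Pool.Agent.H249R2.PM

variable {V E : Type} [Fintype V] [DecidableEq V] [Fintype E] [DecidableEq E]

theorem sum_drop (B : Finset (Finset E)) (f : Finset E → ℝ) (q : ℕ)
    (h0 : ∀ D ∈ B, ¬ q ≤ D.card → f D = 0) :
    ∑ D ∈ B, f D = ∑ D ∈ B.filter (fun D => q ≤ D.card), f D := by
  rw [← sum_filter_add_sum_filter_not B (fun D => q ≤ D.card) f]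
  rw [sum_eq_zero (s := B.filter fun D => ¬ q ≤ D.card), add_zero]
  intro D hD
  rw [mem_filter] at hD
  exact h0 D hD.1 hD.2

theorem sum_lt_num (B : Finset (Finset E)) (f : Finset E → ℝ) (q N : ℕ) (hN : 0 < N)
    (h0 : ∀ D ∈ B, ¬ q ≤ D.card → f D = 0) (h1 : ∀ D ∈ B, q ≤ D.card → f D < 1)
    (hc : (B.filter fun D => q ≤ D.card).card ≤ N) : ∑ D ∈ B, f D < N := by
  rw [sum_drop B f q h0]
  rcases (B.filter fun D => q ≤ D.card).eq_empty_or_nonempty with h | h
  · rw [h, sum_empty]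
    exact_mod_cast hN
  · have h2 : ∑ D ∈ B.filter (fun D => q ≤ D.card), f D
        < ∑ D ∈ B.filter (fun D => q ≤ D.card), (1 : ℝ) := by
      refine sum_lt_sum_of_nonempty h fun D hD => ?_
      rw [mem_filter] at hD
      exact h1 D hD.1 hD.2
    rw [sum_const, nsmul_eq_mul, mul_one] at h2
    have h3 : (((B.filter fun D => q ≤ D.card).card : ℕ) : ℝ) ≤ N := by exact_mod_cast hc
    linarith

theorem sum_le_num (B : Finset (Finset E)) (f : Finset E → ℝ) (q N : ℕ) (t : ℝ) (ht : 0 ≤ t)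
    (h0 : ∀ D ∈ B, ¬ q ≤ D.card → f D = 0) (h1 : ∀ D ∈ B, q ≤ D.card → f D ≤ t)
    (hc : (B.filter fun D => q ≤ D.card).card ≤ N) : ∑ D ∈ B, f D ≤ N * t := by
  rw [sum_drop B f q h0]
  have h2 : ∑ D ∈ B.filter (fun D => q ≤ D.card), f D
      ≤ ∑ D ∈ B.filter (fun D => q ≤ D.card), t := by
    refine sum_le_sum fun D hD => ?_
    rw [mem_filter] at hD
    exact h1 D hD.1 hD.2
  rw [sum_const, nsmul_eq_mul] at h2
  have h3 : (((B.filter fun D => q ≤ D.card).card : ℕ) : ℝ) ≤ N := by exact_mod_cast hc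
  nlinarith

/-- the two conditions on the numbers of bad cuts, for a general exponent `j = 1, 2` -/
theorem term_zero {r : ℕ} {a b : E → V} (hG : RG r a b) {D : Finset E} (hD : D ∈ badCuts a b)
    (h : ¬ r + 2 ≤ D.card) : (D.card : ℝ) - r = 0 := by
  obtain ⟨h1, k, hk⟩ := card_cut hG (mem_badCuts.1 hD).1
  have : D.card = r := by omega
  rw [this]; ring

theorem term_lt {r : ℕ} (hr : 2 ≤ r) {a b : E → V} (hG : RG r a b) {D : Finset E}
    (hD : D ∈ badCuts a b) : 0 ≤ ((D.card : ℝ) - r) / (D.card - 1) ∧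
      ((D.card : ℝ) - r) / (D.card - 1) < 1 := by
  obtain ⟨h1, k, hk⟩ := card_cut hG (mem_badCuts.1 hD).1
  have h2 : (r : ℝ) ≤ D.card := by exact_mod_cast h1
  have h3 : (2 : ℝ) ≤ r := by exact_mod_cast hr
  have h4 : (0 : ℝ) < (D.card : ℝ) - 1 := by linarith
  exact ⟨div_nonneg (by linarith) h4.le, by rw [div_lt_one h4]; linarith⟩

/-- conclusion for three perfect matchings -/
theorem three_of_few {a b : E → V} (hG : RG 3 a b)
    (h : ∑ D ∈ badCuts a b, ((D.card : ℝ) - 3) / (D.card - 1) < 9 ∨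
      ((badCuts a b).filter fun D => 5 ≤ D.card).card ≤ 9 ∨
      (((badCuts a b).filter fun D => 5 ≤ D.card).card ≤ 17 ∧ ∀ D ∈ badCuts a b, D.card ≤ 5)) :
    ∃ M₁ M₂ M₃, PM a b M₁ ∧ PM a b M₂ ∧ PM a b M₃ ∧ M₁ ∩ M₂ ∩ M₃ = ∅ := by
  apply three_pm hG
  have hz : ∀ D ∈ badCuts a b, ¬ 5 ≤ D.card → ((D.card : ℝ) - 3) / (D.card - 1) = 0 := by
    intro D hD h5
    have := term_zero hG hD h5
    push_cast at this
    rw [this, zero_div]
  rcases h with h | h | ⟨h, h'⟩
  · exact h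
  · have h1 := sum_lt_num (badCuts a b) (fun D => ((D.card : ℝ) - 3) / (D.card - 1)) 5 9
      (by norm_num) hz (fun D hD _ => by
        have := (term_lt (by norm_num) hG hD).2
        push_cast at this
        exact this) h
    exact_mod_cast h1
  · have h1 := sum_le_num (badCuts a b) (fun D => ((D.card : ℝ) - 3) / (D.card - 1)) 5 17 (1 / 2)
      (by norm_num) hz (fun D hD h5 => by
        have h6 : D.card = 5 := le_antisymm (h' D hD) h5
        rw [h6]; norm_num) h
    norm_num at h1 ⊢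
    linarith

/-- conclusion for two perfect matchings -/
theorem two_of_few {a b : E → V} (hG : RG 3 a b)
    (h : ∑ D ∈ badCuts a b, (((D.card : ℝ) - 3) / (D.card - 1)) ^ 2 < 9 ∨
      ((badCuts a b).filter fun D => 5 ≤ D.card).card ≤ 9 ∨
      (((badCuts a b).filter fun D => 5 ≤ D.card).card ≤ 35 ∧ ∀ D ∈ badCuts a b, D.card ≤ 5)) :
    ∃ M₁ M₂, PM a b M₁ ∧ PM a b M₂ ∧ ∀ X : Finset V, Odd (delta a b X).card →
      ¬ delta a b X ⊆ M₁ ∩ M₂ := by
  have main : ∑ D ∈ badCuts a b, (((D.card : ℝ) - 3) / (D.card - 1)) ^ 2 < 9 := by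
    have hz : ∀ D ∈ badCuts a b, ¬ 5 ≤ D.card → (((D.card : ℝ) - 3) / (D.card - 1)) ^ 2 = 0 := by
      intro D hD h5
      have := term_zero hG hD h5
      push_cast at this
      rw [this, zero_div]
      norm_num
    rcases h with h | h | ⟨h, h'⟩
    · exact h
    · have h1 := sum_lt_num (badCuts a b) (fun D => (((D.card : ℝ) - 3) / (D.card - 1)) ^ 2) 5 9
        (by norm_num) hz (fun D hD _ => by
          have h2 := term_lt (by norm_num) hG hD
          push_cast at h2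
          exact pow_lt_one₀ h2.1 h2.2 (by norm_num)) h
      exact_mod_cast h1
    · have h1 := sum_le_num (badCuts a b) (fun D => (((D.card : ℝ) - 3) / (D.card - 1)) ^ 2) 5 35
        (1 / 4) (by norm_num) hz (fun D hD h5 => by
          have h6 : D.card = 5 := le_antisymm (h' D hD) h5
          rw [h6]; norm_num) h
      norm_num at h1 ⊢
      linarith
  obtain ⟨M₁, M₂, h1, h2, h3⟩ := two_pm hG main
  refine ⟨M₁, M₂, h1, h2, fun X hX => h3 _ ⟨X, ?_, rfl⟩⟩
  have h4 := handshake hG.noloop hG.reg X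
  obtain ⟨k, hk⟩ := hX
  by_contra h5
  rw [Nat.not_odd_iff_even] at h5
  obtain ⟨l, hl⟩ := h5
  omega

/-- conclusion for one perfect matching -/
theorem one_of_few {a b : E → V} (hG : RG 5 a b)
    (h : ∑ D ∈ badCuts a b, ((D.card : ℝ) - 5) / (D.card - 1) < 5 ∨
      ((badCuts a b).filter fun D => 7 ≤ D.card).card ≤ 5 ∨
      (((badCuts a b).filter fun D => 7 ≤ D.card).card ≤ 14 ∧ ∀ D ∈ badCuts a b, D.card ≤ 7)) :
    ∃ M, PM a b M ∧ ∀ X : Finset V, Odd X.card → ¬ delta a b X ⊆ M := by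
  have main : ∑ D ∈ badCuts a b, ((D.card : ℝ) - (5 : ℕ)) / (D.card - 1) < (5 : ℕ) := by
    have hz : ∀ D ∈ badCuts a b, ¬ 7 ≤ D.card →
        ((D.card : ℝ) - (5 : ℕ)) / (D.card - 1) = 0 := by
      intro D hD h5
      rw [term_zero hG hD h5, zero_div]
    rcases h with h | h | ⟨h, h'⟩
    · push_cast
      exact h
    · exact sum_lt_num (badCuts a b) (fun D => ((D.card : ℝ) - (5 : ℕ)) / (D.card - 1)) 7 5
        (by norm_num) hz (fun D hD _ => (term_lt (by norm_num) hG hD).2) h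
    · have h1 := sum_le_num (badCuts a b) (fun D => ((D.card : ℝ) - (5 : ℕ)) / (D.card - 1)) 7 14
        (1 / 3) (by norm_num) hz (fun D hD h5 => by
          have h6 : D.card = 7 := le_antisymm (h' D hD) h5
          rw [h6]; norm_num) h
      norm_num at h1 ⊢
      linarith
  obtain ⟨M, h1, h2⟩ := one_pm (by norm_num) hG main
  exact ⟨M, h1, fun X hX => h2 _ ⟨X, hX, rfl⟩⟩

end Pool.Agent.TH467.OC
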