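import Pool.Agent.TH467.OC.Circ
import Pool.Agent.TH467.OC.Count

/-!
# Numbers of odd circuits
-/

set_option autoImplicit false
set_option linter.unusedSectionVars false

namespace Pool.Agent.TH467.OC

open Finset Pool.Agent.H249R2.PM

variable {V E : Type} [Fintype V] [DecidableEq V] [Fintype E] [DecidableEq E]

theorem s_four_of_few {a b : E → V} (hG : RG 3 a b)
    (h : ∑ D ∈ circCuts a b, (((D.card : ℝ) - 3) / (D.card - 1)) ^ 2 < 9 ∨
      ((circCuts a b).filter fun D => 5 ≤ D.card).card ≤ 9 ∨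
      (((circCuts a b).filter fun D => 5 ≤ D.card).card ≤ 35 ∧ ∀ D ∈ circCuts a b, D.card ≤ 5)) :
    ∃ M₁ M₂, PM a b M₁ ∧ PM a b M₂ ∧ Bip a b (M₁ ∪ M₂)ᶜ := by
  apply s_four hG
  have hodd : ∀ D ∈ circCuts a b, OddCut a b D := by
    intro D hD
    obtain ⟨⟨X, hX, rfl⟩, -⟩ := mem_circCuts.1 hD
    exact ⟨X, hX.odd, rfl⟩
  have hz : ∀ D ∈ circCuts a b, ¬ 5 ≤ D.card → (((D.card : ℝ) - 3) / (D.card - 1)) ^ 2 = 0 := by
    intro D hD h5
    obtain ⟨h1, k, hk⟩ := card_cut hG (hodd D hD)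
    have h2 : D.card = 3 := by omega
    rw [h2]; norm_num
  rcases h with h | h | ⟨h, h'⟩
  · exact h
  · have h1 := sum_lt_num (circCuts a b) (fun D => (((D.card : ℝ) - 3) / (D.card - 1)) ^ 2) 5 9
      (by norm_num) hz (fun D hD h5 => by
        have h2 : (5 : ℝ) ≤ D.card := by exact_mod_cast h5
        have h4 : (0 : ℝ) < (D.card : ℝ) - 1 := by linarith
        refine pow_lt_one₀ (div_nonneg (by linarith) h4.le) ?_ (by norm_num)
        rw [div_lt_one h4]
        linarith) h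
    exact_mod_cast h1
  · have h1 := sum_le_num (circCuts a b) (fun D => (((D.card : ℝ) - 3) / (D.card - 1)) ^ 2) 5 35
      (1 / 4) (by norm_num) hz (fun D hD h5 => by
        have h6 : D.card = 5 := le_antisymm (h' D hD) h5
        rw [h6]; norm_num) h
    norm_num at h1 ⊢
    linarith

end Pool.Agent.TH467.OC
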