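import Pool.Agent.H249R2.PM.Round
import Pool.Agent.H249R2.PM.Dual

/-!
# Perfect matchings and few odd cuts

Multigraphs with edge set `E`; the ends of the edge `e` are `a e` and `b e`.
-/

set_option autoImplicit false
set_option linter.unusedSectionVars false

namespace Pool.Agent.TH467.OC

open Finset Pool.Agent.H249R2.PM

variable {V E : Type} [Fintype V] [DecidableEq V] [Fintype E] [DecidableEq E]

/-- the edge cut `δ(X)`: the edges with exactly one end in `X` -/
def delta (a b : E → V) (X : Finset V) : Finset E := univ.filter fun e => ¬ (a e ∈ X ↔ b e ∈ X)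

/-- loopless `r`-regular graph, at least `r` edges leave every odd set of vertices -/
structure RG (r : ℕ) (a b : E → V) : Prop where
  noloop : ∀ e, a e ≠ b e
  reg : ∀ v, (univ.filter fun e => a e = v ∨ b e = v).card = r
  odd : ∀ X : Finset V, Odd X.card → r ≤ (delta a b X).card

/-- `M` is a perfect matching: every vertex is an end of exactly one edge of `M` -/
def PM (a b : E → V) (M : Finset E) : Prop := ∀ v, ∃! e, e ∈ M ∧ (a e = v ∨ b e = v)

/-- `D` is an odd cut -/
def OddCut (a b : E → V) (D : Finset E) : Prop := ∃ X : Finset V, Odd X.card ∧ delta a b X = D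

open Classical in
/-- the inclusion-minimal odd cuts which are contained in a perfect matching -/
noncomputable def badCuts (a b : E → V) : Finset (Finset E) :=
  univ.filter fun D => OddCut a b D ∧ (∃ M, PM a b M ∧ D ⊆ M) ∧
    ∀ D', OddCut a b D' → D' ⊆ D → D' = D

theorem delta_eq (a b : E → V) (X : Finset V) : delta a b X = univ.filter (Cr a b X) := rfl

theorem filter_end {a b : E → V} (hl : ∀ e, a e ≠ b e) (M : Finset E) (v : V) :
    M.filter (fun e => a e = v ∨ b e = v) = M.filter (Cr a b {v}) := by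
  ext e
  simp only [mem_filter, Cr_singleton]
  refine and_congr_right fun _ => ?_
  have := hl e
  constructor
  · rintro (h | h) <;> intro h2
    · exact this (h.trans (h2.1 h).symm)
    · exact this ((h2.2 h).trans h.symm)
  · intro h
    by_contra h2
    push Not at h2
    exact h ⟨fun h3 => absurd h3 h2.1, fun h3 => absurd h3 h2.2⟩

theorem pm_iff {a b : E → V} (hl : ∀ e, a e ≠ b e) (M : Finset E) : PM a b M ↔ IsPM a b M := by
  have key : ∀ v, (∃! e, e ∈ M ∧ (a e = v ∨ b e = v)) ↔ (M.filter (Cr a b {v})).card = 1 := by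
    intro v
    rw [← filter_end hl, card_eq_one]
    constructor
    · rintro ⟨e, he, hu⟩
      refine ⟨e, ?_⟩
      ext e'
      rw [mem_filter, mem_singleton]
      exact ⟨fun h => hu e' h, fun h => h ▸ he⟩
    · rintro ⟨e, he⟩
      have h1 : ∀ e', (e' ∈ M ∧ (a e' = v ∨ b e' = v)) ↔ e' = e := by
        intro e'
        have h2 := Finset.ext_iff.1 he e'
        rw [mem_filter, mem_singleton] at h2
        exact h2
      exact ⟨e, (h1 e).2 rfl, fun e' he' => (h1 e').1 he'⟩
  constructor
  · intro h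
    exact ⟨fun e _ => hl e, fun v => (key v).1 (h v)⟩
  · intro h v
    exact (key v).2 (h.deg v)

/-- double counting -/
theorem handshake {r : ℕ} {a b : E → V} (hl : ∀ e, a e ≠ b e)
    (hr : ∀ v, (univ.filter fun e => a e = v ∨ b e = v).card = r) (X : Finset V) :
    r * X.card = (delta a b X).card + 2 * (univ.filter fun e => a e ∈ X ∧ b e ∈ X).card := by
  have h1 : r * X.card = ∑ e : E, (X.filter fun v => a e = v ∨ b e = v).card := by
    calc r * X.card = ∑ v ∈ X, r := by rw [sum_const, smul_eq_mul, mul_comm]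
      _ = ∑ v ∈ X, (univ.filter fun e => a e = v ∨ b e = v).card :=
          sum_congr rfl fun v _ => (hr v).symm
      _ = ∑ v ∈ X, ∑ e : E, (if a e = v ∨ b e = v then 1 else 0) := by
          refine sum_congr rfl fun v _ => ?_
          rw [card_filter]
      _ = ∑ e : E, ∑ v ∈ X, (if a e = v ∨ b e = v then 1 else 0) := sum_comm
      _ = _ := by
          refine sum_congr rfl fun e _ => ?_
          rw [card_filter]
  rw [h1, delta, card_filter, card_filter, mul_sum, ← sum_add_distrib]
  refine sum_congr rfl fun e _ => ?_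
  have hne := hl e
  by_cases h2 : a e ∈ X <;> by_cases h3 : b e ∈ X
  · have : (X.filter fun v => a e = v ∨ b e = v) = {a e, b e} := by
      ext v
      simp only [mem_filter, mem_insert, mem_singleton]
      constructor
      · rintro ⟨_, h | h⟩
        · exact Or.inl h.symm
        · exact Or.inr h.symm
      · rintro (h | h) <;> subst h
        · exact ⟨h2, Or.inl rfl⟩
        · exact ⟨h3, Or.inr rfl⟩
    rw [this, card_pair hne]
    simp [h2, h3]
  · have : (X.filter fun v => a e = v ∨ b e = v) = {a e} := by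
      ext v
      simp only [mem_filter, mem_singleton]
      constructor
      · rintro ⟨h4, h | h⟩
        · exact h.symm
        · exact absurd (h ▸ h4) h3
      · rintro h; subst h
        exact ⟨h2, Or.inl rfl⟩
    rw [this, card_singleton]
    simp [h2, h3]
  · have : (X.filter fun v => a e = v ∨ b e = v) = {b e} := by
      ext v
      simp only [mem_filter, mem_singleton]
      constructor
      · rintro ⟨h4, h | h⟩
        · exact absurd (h ▸ h4) h2
        · exact h.symm
      · rintro h; subst h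
        exact ⟨h3, Or.inr rfl⟩
    rw [this, card_singleton]
    simp [h2, h3]
  · have : (X.filter fun v => a e = v ∨ b e = v) = ∅ := by
      ext v
      simp only [mem_filter, notMem_empty, iff_false]
      rintro ⟨h4, h | h⟩
      · exact absurd (h ▸ h4) h2
      · exact absurd (h ▸ h4) h3
    rw [this, card_empty]
    simp [h2, h3]

/-- cubic graphs without bridges are `3`-graphs -/
theorem rg_three {a b : E → V} (hl : ∀ e, a e ≠ b e)
    (hr : ∀ v, (univ.filter fun e => a e = v ∨ b e = v).card = 3)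
    (hb : ∀ X : Finset V, (delta a b X).card ≠ 1) : RG 3 a b := by
  refine ⟨hl, hr, fun X hX => ?_⟩
  have h1 := handshake hl hr X
  have h2 := hb X
  obtain ⟨k, hk⟩ := hX
  omega

/-- `5`-regular graphs with at least `4` edges in each cut are `5`-graphs -/
theorem rg_five {a b : E → V} (hl : ∀ e, a e ≠ b e)
    (hr : ∀ v, (univ.filter fun e => a e = v ∨ b e = v).card = 5)
    (hb : ∀ X : Finset V, X.Nonempty → X ≠ univ → 4 ≤ (delta a b X).card) :
    RG 5 a b := by
  refine ⟨hl, hr, fun X hX => ?_⟩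
  have hne : X.Nonempty := by
    rw [nonempty_iff_ne_empty]
    rintro rfl
    simp at hX
  have h1 := handshake hl hr X
  have hu : X ≠ univ := by
    rintro rfl
    have h3 : delta a b univ = ∅ := by simp [delta]
    rw [h3, card_empty] at h1
    obtain ⟨k, hk⟩ := hX
    omega
  have h2 := hb X hne hu
  obtain ⟨k, hk⟩ := hX
  omega

theorem even_card {r : ℕ} {a b : E → V} (hr : 1 ≤ r) (hG : RG r a b) : Even (Fintype.card V) := by
  by_contra h
  have h1 := hG.odd univ (by simpa using h)
  have h3 : delta a b univ = ∅ := by simp [delta]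
  rw [h3, card_empty] at h1
  omega

theorem cut_const {a b : E → V} (t : ℝ) (X : Finset V) :
    cut a b (fun _ => t) X = (delta a b X).card * t := by
  unfold cut
  rw [sum_const, nsmul_eq_mul]
  rfl

theorem inter_card_sum (M D : Finset E) : ((M ∩ D).card : ℝ) = ∑ e ∈ M, (if e ∈ D then 1 else 0) := by
  rw [sum_boole, ← filter_mem_eq_inter]

/-- averaging (Edmonds) -/
theorem avgE {r : ℕ} {a b : E → V} (hr : 1 ≤ r) (hG : RG r a b) (F : Finset (Finset E))
    (w : Finset E → ℝ) :
    ∃ M, PM a b M ∧ (r : ℝ) * ∑ D ∈ F, w D * ((M ∩ D).card : ℝ) ≤ ∑ D ∈ F, w D * (D.card : ℝ) := by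
  have hr0 : (0 : ℝ) < r := by exact_mod_cast hr
  have hFr : Fr a b (fun _ : E => (1 : ℝ) / r) := by
    refine ⟨fun e => by positivity, fun v => ?_, fun X hX => ?_⟩
    · rw [cut_const, delta_eq, ← filter_end hG.noloop, hG.reg v]
      field_simp
    · rw [cut_const, mul_one_div, le_div_iff₀ hr0, one_mul]
      exact_mod_cast hG.odd X hX
  obtain ⟨M, hM, -, hle⟩ := round (E := E) (Fintype.card V) V rfl (even_card hr hG) a b
    (fun _ : E => (1 : ℝ) / r) (fun e => ∑ D ∈ F, w D * (if e ∈ D then 1 else 0)) hFr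
  refine ⟨M, (pm_iff hG.noloop M).2 hM, ?_⟩
  have h1 : ∑ e ∈ M, ∑ D ∈ F, w D * (if e ∈ D then (1 : ℝ) else 0)
      = ∑ D ∈ F, w D * ((M ∩ D).card : ℝ) := by
    rw [sum_comm]
    refine sum_congr rfl fun D _ => ?_
    rw [inter_card_sum, mul_sum]
  have h2 : ∑ e ∈ univ.filter (fun e => a e ≠ b e),
      (∑ D ∈ F, w D * (if e ∈ D then (1 : ℝ) else 0)) * ((1 : ℝ) / r)
      = (∑ D ∈ F, w D * (D.card : ℝ)) * ((1 : ℝ) / r) := by
    rw [← sum_mul]
    congr 1
    have h3 : univ.filter (fun e : E => a e ≠ b e) = univ :=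
      filter_true_of_mem fun e _ => hG.noloop e
    rw [h3, sum_comm]
    refine sum_congr rfl fun D _ => ?_
    rw [← mul_sum]
    congr 1
    rw [sum_boole]
    congr 1
    simp
  rw [h1, h2, mul_one_div, le_div_iff₀ hr0] at hle
  linarith

/-- the number of edges of a perfect matching in an odd cut is odd -/
theorem inter_odd {r : ℕ} {a b : E → V} (hG : RG r a b) {M D : Finset E} (hM : PM a b M)
    (hD : OddCut a b D) : Odd (M ∩ D).card := by
  obtain ⟨X, hX, rfl⟩ := hD
  have h1 := (parity ((pm_iff hG.noloop M).1 hM) X).1 hX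
  have h2 : M ∩ delta a b X = M.filter (Cr a b X) := by
    ext e
    simp [delta_eq]
  rw [h2]
  exact h1

/-- the number of edges of an odd cut -/
theorem card_cut {r : ℕ} {a b : E → V} (hG : RG r a b) {D : Finset E} (hD : OddCut a b D) :
    r ≤ D.card ∧ ∃ k, D.card = r + 2 * k := by
  obtain ⟨X, hX, rfl⟩ := hD
  have h1 := hG.odd X hX
  refine ⟨h1, ?_⟩
  have h2 := handshake hG.noloop hG.reg X
  obtain ⟨k, hk⟩ := hX
  rw [hk] at h2
  have h3 : r * (2 * k + 1) = 2 * (r * k) + r := by ring
  rw [h3] at h2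
  refine ⟨((delta a b X).card - r) / 2, ?_⟩
  omega

theorem mem_badCuts {a b : E → V} {D : Finset E} : D ∈ badCuts a b ↔
    OddCut a b D ∧ (∃ M, PM a b M ∧ D ⊆ M) ∧ ∀ D', OddCut a b D' → D' ⊆ D → D' = D := by
  classical
  unfold badCuts
  rw [mem_filter]
  simp

/-- a minimal odd cut -/
theorem exists_min {a b : E → V} (P : Finset E → Prop) (hP : ∀ D D', OddCut a b D' → D' ⊆ D → P D → P D')
    (h : ∃ D, OddCut a b D ∧ P D) :
    ∃ D, OddCut a b D ∧ P D ∧ ∀ D', OddCut a b D' → D' ⊆ D → D' = D := by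
  classical
  obtain ⟨D, hD⟩ := h
  obtain ⟨D₀, h0, hmin⟩ := exists_min_image (univ.filter fun D : Finset E => OddCut a b D ∧ P D)
    Finset.card ⟨D, by simpa using hD⟩
  rw [mem_filter] at h0
  refine ⟨D₀, h0.2.1, h0.2.2, fun D' h1 h2 => ?_⟩
  refine eq_of_subset_of_card_le h2 (hmin D' ?_)
  rw [mem_filter]
  exact ⟨mem_univ _, h1, hP D₀ D' h1 h2 h0.2.2⟩

/-- **One perfect matching** which contains no odd cut. -/
theorem one_pm {r : ℕ} {a b : E → V} (hr : 2 ≤ r) (hG : RG r a b)
    (h : ∑ D ∈ badCuts a b, ((D.card : ℝ) - r) / (D.card - 1) < r) :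
    ∃ M, PM a b M ∧ ∀ D, OddCut a b D → ¬ D ⊆ M := by
  obtain ⟨M, hM, hle⟩ := avgE (by omega) hG (badCuts a b) (fun D => 1 / ((D.card : ℝ) - 1))
  refine ⟨M, hM, fun D hD hDM => ?_⟩
  obtain ⟨D₀, h1, h2, h3⟩ := exists_min (a := a) (b := b) (fun D => D ⊆ M)
    (fun D D' _ h4 h5 => h4.trans h5) ⟨D, hD, hDM⟩
  have h4 : D₀ ∈ badCuts a b := mem_badCuts.2 ⟨h1, ⟨M, hM, h2⟩, h3⟩
  have hr0 : (2 : ℝ) ≤ r := by exact_mod_cast hr
  have hc : ∀ D ∈ badCuts a b, (0 : ℝ) < (D.card : ℝ) - 1 := by
    intro D hD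
    have h5 := (card_cut hG (mem_badCuts.1 hD).1).1
    have : (r : ℝ) ≤ D.card := by exact_mod_cast h5
    linarith
  have hnn : ∀ D ∈ badCuts a b, 0 ≤ 1 / ((D.card : ℝ) - 1) * (((M ∩ D).card : ℝ) - 1) := by
    intro D hD
    have h5 := (inter_odd hG hM (mem_badCuts.1 hD).1).pos
    have h6 : (1 : ℝ) ≤ (M ∩ D).card := by exact_mod_cast h5
    have h7 := hc D hD
    exact mul_nonneg (by positivity) (by linarith)
  have h5 := single_le_sum hnn h4
  have h6 : 1 / ((D₀.card : ℝ) - 1) * (((M ∩ D₀).card : ℝ) - 1) = 1 := by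
    rw [inter_eq_right.2 h2]
    exact one_div_mul_cancel (hc D₀ h4).ne'
  rw [h6] at h5
  have h7 : ∑ D ∈ badCuts a b, 1 / ((D.card : ℝ) - 1) * (((M ∩ D).card : ℝ) - 1)
      = ∑ D ∈ badCuts a b, 1 / ((D.card : ℝ) - 1) * ((M ∩ D).card : ℝ)
        - ∑ D ∈ badCuts a b, 1 / ((D.card : ℝ) - 1) := by
    rw [← sum_sub_distrib]
    exact sum_congr rfl fun D _ => by ring
  have h8 : ∑ D ∈ badCuts a b, ((D.card : ℝ) - r) / (D.card - 1)
      = ∑ D ∈ badCuts a b, 1 / ((D.card : ℝ) - 1) * (D.card : ℝ)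
        - r * ∑ D ∈ badCuts a b, 1 / ((D.card : ℝ) - 1) := by
    rw [mul_sum, ← sum_sub_distrib]
    exact sum_congr rfl fun D _ => by ring
  rw [h7] at h5
  rw [h8] at h
  nlinarith

end Pool.Agent.TH467.OC
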