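import Pool.Agent.TH467.OC.Core

/-!
# Two disjoint perfect matchings of an `r`-graph
-/

set_option autoImplicit false
set_option linter.unusedSectionVars false

namespace Pool.Agent.TH467.OC

open Finset Pool.Agent.H249R2.PM

variable {V E : Type} [Fintype V] [DecidableEq V] [Fintype E] [DecidableEq E]

/-- the subgraph induced by `X` is connected: every nonempty proper subset of `X` is joined by an edge
to the rest of `X` -/
def Joined (a b : E → V) (X : Finset V) : Prop :=
  ∀ Y : Finset V, Y ⊆ X → Y.Nonempty → Y ≠ X →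
    ∃ e, a e ∈ X ∧ b e ∈ X ∧ ¬ (a e ∈ Y ↔ b e ∈ Y)

open Classical in
/-- the odd sets `X` which induce a connected subgraph, such that some perfect matching has at least
`|δ(X)| - r + 2` edges in `δ(X)` -/
noncomputable def badSets (r : ℕ) (a b : E → V) : Finset (Finset V) :=
  univ.filter fun X => Odd X.card ∧ Joined a b X ∧
    ∃ M, PM a b M ∧ (delta a b X).card + 2 ≤ (M ∩ delta a b X).card + r

open Classical in
theorem tutte_sets {a b : E → V} {x : E → ℝ} (hx0 : ∀ e, 0 ≤ x e) (T : Set V)
    (hT : (supG a b x).IsTutteViolator T) (heven : Even (Fintype.card V)) :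
    ∃ S : Finset (Finset V), (∀ X ∈ S, Odd X.card ∧ Joined a b X) ∧ T.ncard + 2 ≤ S.card ∧
      ∑ X ∈ S, cut a b x X ≤ ∑ v ∈ T.toFinset, cut a b x {v} := by
  unfold SimpleGraph.IsTutteViolator at hT
  set G := supG a b x with hG
  set H := ((⊤ : G.Subgraph).deleteVerts T).coe with hH
  -- the vertex set of a component
  let SC : H.ConnectedComponent → Finset V := fun C => (Subtype.val '' C.supp).toFinset
  have memSC : ∀ C v, v ∈ SC C ↔ ∃ h : v ∈ ((⊤ : G.Subgraph).deleteVerts T).verts,
      (⟨v, h⟩ : ((⊤ : G.Subgraph).deleteVerts T).verts) ∈ C.supp := by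
    intro C v
    simp only [SC, Set.mem_toFinset, Set.mem_image]
    constructor
    · rintro ⟨⟨w, hw⟩, h1, rfl⟩
      exact ⟨hw, h1⟩
    · rintro ⟨h, h1⟩
      exact ⟨⟨v, h⟩, h1, rfl⟩
  have cardSC : ∀ C : H.ConnectedComponent, (SC C).card = C.supp.ncard := by
    intro C
    rw [← Set.ncard_image_of_injective _ Subtype.val_injective, Set.ncard_eq_toFinset_card']
  -- crossing edges of a component lead to T
  have key : ∀ (C : H.ConnectedComponent) (e : E), 0 < x e → Cr a b (SC C) e →
      ∃ v ∈ T, Cr a b {v} e ∧ ((a e ∈ SC C ∧ b e = v) ∨ (b e ∈ SC C ∧ a e = v)) := by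
    have base : ∀ (C : H.ConnectedComponent) (e : E) (u w : V), 0 < x e →
        ((a e = u ∧ b e = w) ∨ (a e = w ∧ b e = u)) → u ∈ SC C → w ∉ SC C → w ∈ T := by
      intro C e u w he huw hu hw
      by_contra hwT
      obtain ⟨hu1, hu2⟩ := (memSC C u).1 hu
      have hne : u ≠ w := by
        rintro rfl
        exact hw hu
      have hadj : G.Adj u w := ⟨hne, e, he, huw⟩
      have hw1 : w ∈ ((⊤ : G.Subgraph).deleteVerts T).verts := by
        simp [hwT]
      have huT : u ∉ T := by
        simp only [SimpleGraph.Subgraph.deleteVerts_verts, SimpleGraph.Subgraph.verts_top] at hu1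
        exact hu1.2
      have hH' : H.Adj ⟨u, hu1⟩ ⟨w, hw1⟩ := by
        simp only [hH, SimpleGraph.Subgraph.coe_adj, SimpleGraph.Subgraph.deleteVerts_adj]
        simp [huT, hwT, hadj]
      apply hw
      rw [memSC]
      refine ⟨hw1, ?_⟩
      rw [SimpleGraph.ConnectedComponent.mem_supp_iff] at hu2 ⊢
      rw [← hu2]
      exact (SimpleGraph.ConnectedComponent.connectedComponentMk_eq_of_adj hH').symm
    intro C e he hcr
    have hne : a e ≠ b e := Cr_ne hcr
    by_cases h1 : a e ∈ SC C
    · have h2 : b e ∉ SC C := by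
        intro h2
        exact hcr ⟨fun _ => h2, fun _ => h1⟩
      refine ⟨b e, base C e (a e) (b e) he (Or.inl ⟨rfl, rfl⟩) h1 h2, ?_, Or.inl ⟨h1, rfl⟩⟩
      rw [Cr_singleton]
      simp [hne]
    · have h2 : b e ∈ SC C := by
        by_contra h2
        exact hcr ⟨fun h => absurd h h1, fun h => absurd h h2⟩
      refine ⟨a e, base C e (b e) (a e) he (Or.inr ⟨rfl, rfl⟩) h2 h1, ?_, Or.inr ⟨h2, rfl⟩⟩
      rw [Cr_singleton]
      simp [hne.symm]
  have notT : ∀ C v, v ∈ SC C → v ∉ T := by
    intro C v hv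
    obtain ⟨h1, _⟩ := (memSC C v).1 hv
    simp only [SimpleGraph.Subgraph.deleteVerts_verts, SimpleGraph.Subgraph.verts_top] at h1
    exact h1.2
  have disj : ∀ C C' v, v ∈ SC C → v ∈ SC C' → C = C' := by
    intro C C' v h h'
    obtain ⟨h1, h2⟩ := (memSC C v).1 h
    obtain ⟨h1', h2'⟩ := (memSC C' v).1 h'
    rw [SimpleGraph.ConnectedComponent.mem_supp_iff] at h2 h2'
    rw [← h2, ← h2']
  let Cs : Finset H.ConnectedComponent := H.oddComponents.toFinset
  have hCs : H.oddComponents.ncard = Cs.card := by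
    rw [Set.ncard_eq_toFinset_card']
  have hSCne : ∀ C, (SC C).Nonempty := by
    intro C
    obtain ⟨v, hv⟩ := C.nonempty_supp
    exact ⟨v.1, (memSC C v.1).2 ⟨v.2, hv⟩⟩
  have hinj : ∀ C C', SC C = SC C' → C = C' := by
    intro C C' h
    obtain ⟨v, hv⟩ := hSCne C
    exact disj C C' v hv (h ▸ hv)
  have hodd : ∀ C ∈ Cs, Odd (SC C).card := by
    intro C hC
    rw [cardSC]
    have := Set.mem_toFinset.1 hC
    exact this
  refine ⟨Cs.image SC, ?_, ?_, ?_⟩
  · intro X hX
    obtain ⟨C, hC, rfl⟩ := mem_image.1 hX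
    refine ⟨hodd C hC, ?_⟩
    intro Y hY hYn hYne
    by_contra hno
    push Not at hno
    -- `Y` is closed under adjacency in `H`
    have hcl : ∀ p q : ((⊤ : G.Subgraph).deleteVerts T).verts, H.Adj p q → p.1 ∈ Y → q.1 ∈ Y := by
      intro p q hpq hp
      have hpC : p.1 ∈ SC C := hY hp
      have hqC : q.1 ∈ SC C := by
        obtain ⟨h1, h2⟩ := (memSC C p.1).1 hpC
        rw [memSC]
        refine ⟨q.2, ?_⟩
        rw [SimpleGraph.ConnectedComponent.mem_supp_iff] at h2 ⊢
        rw [← h2]
        exact (SimpleGraph.ConnectedComponent.connectedComponentMk_eq_of_adj hpq).symm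
      have hadj : G.Adj p.1 q.1 := by
        simp only [hH, SimpleGraph.Subgraph.coe_adj, SimpleGraph.Subgraph.deleteVerts_adj] at hpq
        exact hpq.2.2.2.2
      obtain ⟨hne, e, he, h3⟩ := hadj
      rcases h3 with ⟨h3, h4⟩ | ⟨h3, h4⟩
      · have := hno e (by rw [h3]; exact hpC) (by rw [h4]; exact hqC)
        rw [h3, h4] at this
        exact this.1 hp
      · have := hno e (by rw [h3]; exact hqC) (by rw [h4]; exact hpC)
        rw [h3, h4] at this
        exact this.2 hp
    obtain ⟨p, hp⟩ := hYn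
    obtain ⟨hp1, hp2⟩ := (memSC C p).1 (hY hp)
    apply hYne
    refine subset_antisymm hY fun q hq => ?_
    obtain ⟨hq1, hq2⟩ := (memSC C q).1 hq
    have hr : H.Reachable ⟨p, hp1⟩ ⟨q, hq1⟩ := by
      rw [SimpleGraph.ConnectedComponent.mem_supp_iff] at hp2 hq2
      exact SimpleGraph.ConnectedComponent.exact (hp2.trans hq2.symm)
    obtain ⟨walk⟩ := hr
    have hwalk : ∀ (p q : ((⊤ : G.Subgraph).deleteVerts T).verts), H.Walk p q → p.1 ∈ Y → q.1 ∈ Y := by
      intro p q w
      induction w with
      | nil => exact id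
      | cons hadj _ ih => exact fun h => ih (hcl _ _ hadj h)
    exact hwalk _ _ walk hp
  · rw [card_image_of_injective _ (fun C C' h => hinj C C' h), ← hCs]
    have hpar := SimpleGraph.odd_ncard_oddComponents (G := H)
    have hcardV : Nat.card ((⊤ : G.Subgraph).deleteVerts T).verts = Fintype.card V - T.ncard := by
      have h1 : ((⊤ : G.Subgraph).deleteVerts T).verts = Tᶜ := by
        ext v
        simp
      rw [h1, Nat.card_coe_set_eq, Set.ncard_compl, Nat.card_eq_fintype_card]
    have hle : T.ncard ≤ Fintype.card V := by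
      rw [← Nat.card_eq_fintype_card]
      exact Set.ncard_le_card T
    rw [hcardV] at hpar
    obtain ⟨m, hm⟩ := heven
    by_contra hlt
    have h2 : H.oddComponents.ncard = T.ncard + 1 := by omega
    rw [h2] at hpar
    rcases Nat.even_or_odd T.ncard with ⟨j, hj⟩ | ⟨j, hj⟩
    · have h3 : Odd (T.ncard + 1) := ⟨j, by omega⟩
      obtain ⟨l, hl⟩ := hpar.1 h3
      omega
    · have h3 : Odd (Fintype.card V - T.ncard) := ⟨m - j - 1, by omega⟩
      obtain ⟨l, hl⟩ := hpar.2 h3
      omega
  · rw [sum_image (fun C _ C' _ h => hinj C C' h)]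
    calc ∑ C ∈ Cs, cut a b x (SC C)
        = ∑ e, ∑ C ∈ Cs, (if Cr a b (SC C) e then x e else 0) := by
          rw [Finset.sum_comm]
          apply Finset.sum_congr rfl
          intro C _
          rw [cut_eq_ite]
      _ ≤ ∑ e, ∑ v ∈ T.toFinset, (if Cr a b {v} e then x e else 0) := by
          apply Finset.sum_le_sum
          intro e _
          by_cases hex : ∃ C ∈ Cs, Cr a b (SC C) e ∧ 0 < x e
          · obtain ⟨C, hC, hcr, hxe⟩ := hex
            obtain ⟨v, hvT, hvc, hv⟩ := key C e hxe hcr
            have h1 : ∑ C' ∈ Cs, (if Cr a b (SC C') e then x e else 0) ≤ x e := by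
              have : ∑ C' ∈ Cs, (if Cr a b (SC C') e then x e else 0)
                  = ∑ C' ∈ Cs, (if C' = C then x e else 0) := by
                apply Finset.sum_congr rfl
                intro C' _
                by_cases hCC : C' = C
                · subst hCC
                  rw [if_pos hcr, if_pos rfl]
                · rw [if_neg hCC, if_neg]
                  intro hcr'
                  obtain ⟨v', hvT', _, hv'⟩ := key C' e hxe hcr'
                  rcases hv with ⟨h3, h4⟩ | ⟨h3, h4⟩ <;> rcases hv' with ⟨h5, h6⟩ | ⟨h5, h6⟩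
                  · exact hCC (disj _ _ _ h5 h3)
                  · exact notT _ _ h3 (by rw [h6]; exact hvT')
                  · exact notT _ _ h3 (by rw [h6]; exact hvT')
                  · exact hCC (disj _ _ _ h5 h3)
              rw [this, Finset.sum_ite_eq' Cs C, if_pos hC]
            have h2 : x e ≤ ∑ v ∈ T.toFinset, (if Cr a b {v} e then x e else 0) := by
              have := Finset.single_le_sum (f := fun v => if Cr a b {v} e then x e else 0)
                (s := T.toFinset) (fun w _ => by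
                  split_ifs
                  · exact hx0 e
                  · exact le_rfl) (Set.mem_toFinset.2 hvT)
              simpa [hvc] using this
            exact h1.trans h2
          · have h1 : ∑ C' ∈ Cs, (if Cr a b (SC C') e then x e else 0) = 0 := by
              apply Finset.sum_eq_zero
              intro C' hC'
              by_cases hcr : Cr a b (SC C') e
              · rw [if_pos hcr]
                by_contra hne
                exact hex ⟨C', hC', hcr, lt_of_le_of_ne (hx0 e) (Ne.symm hne)⟩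
              · rw [if_neg hcr]
            rw [h1]
            apply Finset.sum_nonneg
            intro w _
            split_ifs
            · exact hx0 e
            · exact le_rfl
      _ = ∑ v ∈ T.toFinset, cut a b x {v} := by
          rw [Finset.sum_comm]
          apply Finset.sum_congr rfl
          intro v _
          rw [cut_eq_ite]

theorem exists_pm_of {a b : E → V} [Nonempty E] {x : E → ℝ}
    (hx : ∀ T, ¬ (supG a b x).IsTutteViolator T) :
    ∃ M, IsPM a b M ∧ ∀ e ∈ M, 0 < x e := by
  classical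
  obtain ⟨M, hM⟩ := (SimpleGraph.tutte (G := supG a b x)).2 hx
  -- choose an edge for every matched pair
  have hch : ∀ s : Sym2 V, s ∈ M.edgeSet → ∃ e : E, 0 < x e ∧ s(a e, b e) = s := by
    intro s
    induction s using Sym2.ind with
    | _ u v =>
      intro h
      have h1 : (supG a b x).Adj u v := M.adj_sub h
      obtain ⟨hne, e, he, h2⟩ := h1
      refine ⟨e, he, ?_⟩
      rcases h2 with ⟨h3, h4⟩ | ⟨h3, h4⟩
      · rw [h3, h4]
      · rw [h3, h4, Sym2.eq_swap]
  choose! g hg1 hg2 using hch
  let MS : Finset (Sym2 V) := Finset.univ.filter (fun s => s ∈ M.edgeSet)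
  refine ⟨MS.image g, ⟨?_, ?_⟩, ?_⟩
  · intro e he
    obtain ⟨s, hs, rfl⟩ := Finset.mem_image.1 he
    have hs' : s ∈ M.edgeSet := by simpa [MS] using hs
    intro hab
    have h1 := hg2 s hs'
    have h2 : s.IsDiag := by
      rw [← h1, hab]
      exact Sym2.diag_isDiag _
    have h3 : s ∈ (supG a b x).edgeSet := M.edgeSet_subset hs'
    exact (supG a b x).not_isDiag_of_mem_edgeSet h3 h2
  · intro v
    obtain ⟨w, hw, huniq⟩ := hM.1 (hM.2 v)
    rw [Finset.card_eq_one]
    refine ⟨g s(v, w), ?_⟩
    have hvw : s(v, w) ∈ M.edgeSet := hw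
    have hne : v ≠ w := (M.adj_sub hw).ne
    ext e
    simp only [Finset.mem_filter, Finset.mem_image, Finset.mem_singleton]
    constructor
    · rintro ⟨⟨s, hs, rfl⟩, hcr⟩
      have hs' : s ∈ M.edgeSet := by simpa [MS] using hs
      rw [Cr_singleton] at hcr
      have h1 := hg2 s hs'
      have hv : v ∈ s := by
        rw [← h1, Sym2.mem_iff]
        by_contra hcon
        push Not at hcon
        exact hcr ⟨fun h => absurd h.symm hcon.1, fun h => absurd h.symm hcon.2⟩
      obtain ⟨w', rfl⟩ := hv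
      have : w' = w := huniq w' hs'
      rw [this]
    · rintro rfl
      refine ⟨⟨s(v, w), by simpa [MS] using hvw, rfl⟩, ?_⟩
      rw [Cr_singleton]
      have h1 := hg2 _ hvw
      rw [Sym2.eq_iff] at h1
      rcases h1 with ⟨h2, h3⟩ | ⟨h2, h3⟩
      · rw [h2, h3]
        simp [hne.symm]
      · rw [h2, h3]
        simp [hne.symm]
  · intro e he
    obtain ⟨s, hs, rfl⟩ := Finset.mem_image.1 he
    exact hg1 s (by simpa [MS] using hs)


/-- averaging, for a family of edge sets -/
theorem avgI {ι : Type} {r : ℕ} {a b : E → V} (hr : 1 ≤ r) (hG : RG r a b) (F : Finset ι)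
    (d : ι → Finset E) (w : ι → ℝ) :
    ∃ M, PM a b M ∧ (r : ℝ) * ∑ i ∈ F, w i * (((M ∩ d i).card : ℝ) - 1) ≤
      ∑ i ∈ F, w i * (((d i).card : ℝ) - r) := by
  classical
  obtain ⟨M, hM, hle⟩ := avgE hr hG (F.image d) (fun D => ∑ i ∈ F.filter (fun i => d i = D), w i)
  refine ⟨M, hM, ?_⟩
  have key : ∀ g : Finset E → ℝ, ∑ D ∈ F.image d, (∑ i ∈ F.filter (fun i => d i = D), w i) * g D
      = ∑ i ∈ F, w i * g (d i) := by
    intro g
    rw [← sum_fiberwise_of_maps_to (s := F) (t := F.image d) (g := d)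
      (fun i hi => mem_image_of_mem d hi) (fun i => w i * g (d i))]
    refine sum_congr rfl fun D _ => ?_
    rw [sum_mul]
    refine sum_congr rfl fun i hi => ?_
    rw [(mem_filter.1 hi).2]
  rw [key (fun D => ((M ∩ D).card : ℝ)), key (fun D => (D.card : ℝ))] at hle
  have h1 : ∑ i ∈ F, w i * (((M ∩ d i).card : ℝ) - 1)
      = ∑ i ∈ F, w i * ((M ∩ d i).card : ℝ) - ∑ i ∈ F, w i := by
    rw [← sum_sub_distrib]
    exact sum_congr rfl fun D _ => by ring
  have h2 : ∑ i ∈ F, w i * (((d i).card : ℝ) - r)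
      = ∑ i ∈ F, w i * ((d i).card : ℝ) - r * ∑ i ∈ F, w i := by
    rw [mul_sum, ← sum_sub_distrib]
    exact sum_congr rfl fun D _ => by ring
  rw [h1, h2]
  linarith

theorem mem_badSets {r : ℕ} {a b : E → V} {X : Finset V} : X ∈ badSets r a b ↔
    Odd X.card ∧ Joined a b X ∧
      ∃ M, PM a b M ∧ (delta a b X).card + 2 ≤ (M ∩ delta a b X).card + r := by
  classical
  unfold badSets
  rw [mem_filter]
  simp

/-- **Two disjoint perfect matchings.** -/
theorem disjoint_pm {r : ℕ} {a b : E → V} (hr : 2 ≤ r) (hG : RG r a b)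
    (h : ∑ X ∈ badSets r a b, (((delta a b X).card : ℝ) - r) / ((delta a b X).card - 1) < 2 * r) :
    ∃ M₁ M₂, PM a b M₁ ∧ PM a b M₂ ∧ Disjoint M₁ M₂ := by
  classical
  rcases isEmpty_or_nonempty E with hE | hE
  · have hV : IsEmpty V := by
      by_contra hne
      rw [not_isEmpty_iff] at hne
      obtain ⟨v⟩ := hne
      have h1 := hG.reg v
      have h2 : (univ.filter fun e : E => a e = v ∨ b e = v) = ∅ := by
        ext e
        exact (hE.false e).elim
      rw [h2, card_empty] at h1
      omega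
    exact ⟨∅, ∅, fun v => (hV.false v).elim, fun v => (hV.false v).elim, disjoint_empty_left _⟩
  obtain ⟨M₁, hM₁, hle⟩ := avgI (by omega) hG (badSets r a b) (delta a b)
    (fun X => 1 / (((delta a b X).card : ℝ) - 1))
  have hr0 : (2 : ℝ) ≤ r := by exact_mod_cast hr
  have hc : ∀ X : Finset V, Odd X.card → (r : ℝ) ≤ (delta a b X).card := by
    intro X hX
    exact_mod_cast hG.odd X hX
  have hm : ∀ X : Finset V, Odd X.card → (1 : ℝ) ≤ (M₁ ∩ delta a b X).card := by
    intro X hX
    exact_mod_cast (inter_odd hG hM₁ ⟨X, hX, rfl⟩).pos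
  have e1 : ∑ X ∈ badSets r a b, 1 / (((delta a b X).card : ℝ) - 1) * (((delta a b X).card : ℝ) - r)
      = ∑ X ∈ badSets r a b, (((delta a b X).card : ℝ) - r) / ((delta a b X).card - 1) :=
    sum_congr rfl fun X _ => by ring
  rw [e1] at hle
  have hS : ∑ X ∈ badSets r a b, 1 / (((delta a b X).card : ℝ) - 1)
      * (((M₁ ∩ delta a b X).card : ℝ) - 1) < 2 := by
    nlinarith
  have hnn : ∀ X ∈ badSets r a b, 0 ≤ 1 / (((delta a b X).card : ℝ) - 1)
      * (((M₁ ∩ delta a b X).card : ℝ) - 1) := by
    intro X hX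
    have h1 := hc X (mem_badSets.1 hX).1
    have h2 := hm X (mem_badSets.1 hX).1
    exact mul_nonneg (div_nonneg zero_le_one (by linarith)) (by linarith)
  set x : E → ℝ := fun e => if e ∈ M₁ then 0 else 1 with hx
  have hx0 : ∀ e, 0 ≤ x e := by
    intro e; simp only [hx]; split_ifs <;> norm_num
  have hcut : ∀ X : Finset V, cut a b x X
      = ((delta a b X).card : ℝ) - (M₁ ∩ delta a b X).card := by
    intro X
    have h1 : cut a b x X = ∑ e ∈ delta a b X, (1 - (if e ∈ M₁ then (1 : ℝ) else 0)) := by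
      unfold cut
      refine sum_congr rfl fun e _ => ?_
      simp only [hx]
      split_ifs <;> norm_num
    rw [h1, sum_sub_distrib, sum_const, sum_boole, nsmul_eq_mul, filter_mem_eq_inter,
      inter_comm, mul_one]
  have hv : ∀ v, cut a b x {v} = (r : ℝ) - 1 := by
    intro v
    rw [hcut]
    have h1 := ((pm_iff hG.noloop M₁).1 hM₁).deg v
    have h2 : M₁ ∩ delta a b {v} = M₁.filter (Cr a b {v}) := by
      ext e
      simp [delta_eq]
    rw [h2, h1, delta_eq, ← filter_end hG.noloop, hG.reg v]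
    norm_num
  have hno : ∀ T, ¬ (supG a b x).IsTutteViolator T := by
    intro T hT
    obtain ⟨S, hS1, hS2, hS3⟩ := tutte_sets hx0 T hT (even_card (by omega) hG)
    rw [sum_congr rfl (fun v _ => hv v), sum_const, nsmul_eq_mul] at hS3
    have hTc : ((T.toFinset.card : ℕ) : ℝ) + 2 ≤ S.card := by
      rw [← Set.ncard_eq_toFinset_card']
      exact_mod_cast hS2
    -- lower bound
    have hlow : ∀ X ∈ S, ((r : ℝ) - 1) - ((r : ℝ) - 1) * (if X ∈ badSets r a b then
        1 / (((delta a b X).card : ℝ) - 1) * (((M₁ ∩ delta a b X).card : ℝ) - 1) else 0)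
        ≤ cut a b x X := by
      intro X hX
      obtain ⟨ho, hj⟩ := hS1 X hX
      rw [hcut]
      have h1 := hc X ho
      have h2 := hm X ho
      have h3 : ((M₁ ∩ delta a b X).card : ℝ) ≤ (delta a b X).card := by
        exact_mod_cast card_le_card inter_subset_right
      have h4 : (0 : ℝ) < ((delta a b X).card : ℝ) - 1 := by linarith
      split_ifs with hb
      · have h5 : ((r : ℝ) - 1) - ((r : ℝ) - 1) * (1 / (((delta a b X).card : ℝ) - 1)
            * (((M₁ ∩ delta a b X).card : ℝ) - 1))
            = ((r : ℝ) - 1) / (((delta a b X).card : ℝ) - 1)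
              * (((delta a b X).card : ℝ) - (M₁ ∩ delta a b X).card) := by
          field_simp
          ring
        rw [h5]
        have h6 : ((r : ℝ) - 1) / (((delta a b X).card : ℝ) - 1) ≤ 1 := by
          rw [div_le_one h4]; linarith
        calc _ ≤ 1 * (((delta a b X).card : ℝ) - (M₁ ∩ delta a b X).card) :=
              mul_le_mul_of_nonneg_right h6 (by linarith)
          _ = _ := one_mul _
      · rw [mul_zero, sub_zero]
        have h5 : ¬ ((delta a b X).card + 2 ≤ (M₁ ∩ delta a b X).card + r) := fun h6 =>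
          hb (mem_badSets.2 ⟨ho, hj, M₁, hM₁, h6⟩)
        have h6 : (M₁ ∩ delta a b X).card + r ≤ (delta a b X).card + 1 := by omega
        have h7 : ((M₁ ∩ delta a b X).card : ℝ) + r ≤ (delta a b X).card + 1 := by exact_mod_cast h6
        linarith
    have hsum := sum_le_sum hlow
    rw [sum_sub_distrib, sum_const, nsmul_eq_mul, ← mul_sum] at hsum
    have hle2 : ∑ X ∈ S, (if X ∈ badSets r a b then
        1 / (((delta a b X).card : ℝ) - 1) * (((M₁ ∩ delta a b X).card : ℝ) - 1) else 0) < 2 := by
      refine lt_of_le_of_lt ?_ hS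
      rw [← sum_filter]
      refine sum_le_sum_of_subset_of_nonneg ?_ fun X hX _ => hnn X hX
      intro X hX
      exact (mem_filter.1 hX).2
    have hrp : (0 : ℝ) < (r : ℝ) - 1 := by linarith
    have h8 : ((r : ℝ) - 1) * ∑ X ∈ S, (if X ∈ badSets r a b then
        1 / (((delta a b X).card : ℝ) - 1) * (((M₁ ∩ delta a b X).card : ℝ) - 1) else 0)
        < ((r : ℝ) - 1) * 2 := mul_lt_mul_of_pos_left hle2 hrp
    have h9 : ((r : ℝ) - 1) * (((T.toFinset.card : ℕ) : ℝ) + 2) ≤ ((r : ℝ) - 1) * S.card :=
      mul_le_mul_of_nonneg_left hTc hrp.le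
    linarith
  obtain ⟨M₂, hM₂, hpos⟩ := exists_pm_of hno
  refine ⟨M₁, M₂, hM₁, (pm_iff hG.noloop M₂).2 hM₂, ?_⟩
  rw [disjoint_left]
  intro e h1 h2
  have h3 := hpos e h2
  simp only [hx] at h3
  rw [if_pos h1] at h3
  exact lt_irrefl _ h3

end Pool.Agent.TH467.OC
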