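import Pool.Agent.TH467.OC.Disj

/-!
# Numbers of bad sets
-/

set_option autoImplicit false
set_option linter.unusedSectionVars false

namespace Pool.Agent.TH467.OC

open Finset Pool.Agent.H249R2.PM

variable {V E : Type} [Fintype V] [DecidableEq V] [Fintype E] [DecidableEq E]

theorem sum_drop' {ι : Type} (B : Finset ι) (g : ι → ℕ) (f : ι → ℝ) (q : ℕ)
    (h0 : ∀ D ∈ B, ¬ q ≤ g D → f D = 0) :
    ∑ D ∈ B, f D = ∑ D ∈ B.filter (fun D => q ≤ g D), f D := by
  classical
  rw [← sum_filter_add_sum_filter_not B (fun D => q ≤ g D) f]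
  rw [sum_eq_zero (s := B.filter fun D => ¬ q ≤ g D), add_zero]
  intro D hD
  rw [mem_filter] at hD
  exact h0 D hD.1 hD.2

/-- conclusion for two disjoint perfect matchings -/
theorem disjoint_of_few {r : ℕ} (hr : 2 ≤ r) {a b : E → V} (hG : RG r a b)
    (h : ∑ X ∈ badSets r a b, (((delta a b X).card : ℝ) - r) / ((delta a b X).card - 1) < 2 * r ∨
      ((badSets r a b).filter fun X => r + 2 ≤ (delta a b X).card).card ≤ 2 * r ∨
      ∃ t : ℕ, (∀ X ∈ badSets r a b, (delta a b X).card ≤ r + t) ∧
        ((badSets r a b).filter fun X => r + 2 ≤ (delta a b X).card).card * t + 2 * r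
          < 2 * r * (r + t)) :
    ∃ M₁ M₂, PM a b M₁ ∧ PM a b M₂ ∧ Disjoint M₁ M₂ := by
  apply disjoint_pm hr hG
  have hr0 : (2 : ℝ) ≤ r := by exact_mod_cast hr
  have hz : ∀ X ∈ badSets r a b, ¬ r + 2 ≤ (delta a b X).card →
      (((delta a b X).card : ℝ) - r) / ((delta a b X).card - 1) = 0 := by
    intro X hX h5
    obtain ⟨h1, k, hk⟩ := card_cut hG ⟨X, (mem_badSets.1 hX).1, rfl⟩
    have h2 : (delta a b X).card = r := by omega
    rw [h2, sub_self, zero_div]
  have hc : ∀ X ∈ badSets r a b, (r : ℝ) ≤ (delta a b X).card := fun X hX => by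
    exact_mod_cast hG.odd X (mem_badSets.1 hX).1
  rcases h with h | h | ⟨t, ht, h⟩
  · exact h
  · rw [sum_drop' (badSets r a b) (fun X => (delta a b X).card) _ (r + 2) hz]
    rcases ((badSets r a b).filter fun X => r + 2 ≤ (delta a b X).card).eq_empty_or_nonempty
      with he | he
    · rw [he, sum_empty]; linarith
    · have h2 : ∑ X ∈ (badSets r a b).filter (fun X => r + 2 ≤ (delta a b X).card),
          (((delta a b X).card : ℝ) - r) / ((delta a b X).card - 1)
          < ∑ X ∈ (badSets r a b).filter (fun X => r + 2 ≤ (delta a b X).card), (1 : ℝ) := by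
        refine sum_lt_sum_of_nonempty he fun X hX => ?_
        have h3 := hc X (mem_filter.1 hX).1
        have h4 : (0 : ℝ) < ((delta a b X).card : ℝ) - 1 := by linarith
        rw [div_lt_one h4]
        linarith
      rw [sum_const, nsmul_eq_mul, mul_one] at h2
      have h3 : ((((badSets r a b).filter fun X => r + 2 ≤ (delta a b X).card).card : ℕ) : ℝ)
          ≤ 2 * r := by exact_mod_cast h
      linarith
  · rw [sum_drop' (badSets r a b) (fun X => (delta a b X).card) _ (r + 2) hz]
    have hrt : (0 : ℝ) < (r : ℝ) + t - 1 := by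
      have : (0 : ℝ) ≤ t := Nat.cast_nonneg t
      linarith
    have h2 : ∑ X ∈ (badSets r a b).filter (fun X => r + 2 ≤ (delta a b X).card),
        (((delta a b X).card : ℝ) - r) / ((delta a b X).card - 1)
        ≤ ∑ X ∈ (badSets r a b).filter (fun X => r + 2 ≤ (delta a b X).card),
          (t : ℝ) / ((r : ℝ) + t - 1) := by
      refine sum_le_sum fun X hX => ?_
      have h3 := hc X (mem_filter.1 hX).1
      have h4 : (0 : ℝ) < ((delta a b X).card : ℝ) - 1 := by linarith
      have h5 : ((delta a b X).card : ℝ) ≤ (r : ℝ) + t := by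
        exact_mod_cast ht X (mem_filter.1 hX).1
      rw [div_le_div_iff₀ h4 hrt]
      nlinarith
    rw [sum_const, nsmul_eq_mul] at h2
    refine lt_of_le_of_lt h2 ?_
    rw [← mul_div_assoc, div_lt_iff₀ hrt]
    have h3 : ((((badSets r a b).filter fun X => r + 2 ≤ (delta a b X).card).card : ℕ) : ℝ) * t
        + 2 * r < 2 * r * (r + t) := by exact_mod_cast h
    linarith

end Pool.Agent.TH467.OC
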