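import Pool.Agent.TH467.OC.Core

/-!
# Two and three perfect matchings of a cubic graph
-/

set_option autoImplicit false
set_option linter.unusedSectionVars false

namespace Pool.Agent.TH467.OC

open Finset Pool.Agent.H249R2.PM

variable {V E : Type} [Fintype V] [DecidableEq V] [Fintype E] [DecidableEq E]

/-- averaging, with the number of edges minus one -/
theorem avg1 {r : ℕ} {a b : E → V} (hr : 1 ≤ r) (hG : RG r a b) (F : Finset (Finset E))
    (w : Finset E → ℝ) :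
    ∃ M, PM a b M ∧ (r : ℝ) * ∑ D ∈ F, w D * (((M ∩ D).card : ℝ) - 1) ≤
      ∑ D ∈ F, w D * ((D.card : ℝ) - r) := by
  obtain ⟨M, hM, hle⟩ := avgE hr hG F w
  refine ⟨M, hM, ?_⟩
  have h1 : ∑ D ∈ F, w D * (((M ∩ D).card : ℝ) - 1)
      = ∑ D ∈ F, w D * ((M ∩ D).card : ℝ) - ∑ D ∈ F, w D := by
    rw [← sum_sub_distrib]
    exact sum_congr rfl fun D _ => by ring
  have h2 : ∑ D ∈ F, w D * ((D.card : ℝ) - r)
      = ∑ D ∈ F, w D * (D.card : ℝ) - r * ∑ D ∈ F, w D := by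
    rw [mul_sum, ← sum_sub_distrib]
    exact sum_congr rfl fun D _ => by ring
  rw [h1, h2]
  linarith

/-- the data of a bad cut -/
theorem bad_data {a b : E → V} (hG : RG 3 a b) {M D : Finset E} (hM : PM a b M)
    (hD : OddCut a b D) : (∃ k, D.card = 3 + 2 * k) ∧ ∃ j, (M ∩ D).card = 1 + 2 * j ∧
      (M ∩ D).card ≤ D.card := by
  obtain ⟨-, k, hk⟩ := card_cut hG hD
  obtain ⟨j, hj⟩ := inter_odd hG hM hD
  exact ⟨⟨k, hk⟩, j, by omega, card_le_card inter_subset_right⟩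

/-- **Two perfect matchings** whose intersection contains no odd cut. -/
theorem two_pm {a b : E → V} (hG : RG 3 a b)
    (h : ∑ D ∈ badCuts a b, (((D.card : ℝ) - 3) / (D.card - 1)) ^ 2 < 9) :
    ∃ M₁ M₂, PM a b M₁ ∧ PM a b M₂ ∧ ∀ D, OddCut a b D → ¬ D ⊆ M₁ ∩ M₂ := by
  obtain ⟨M₁, hM₁, hle₁⟩ := avg1 (by norm_num) hG (badCuts a b)
    (fun D => ((D.card : ℝ) - 3) / ((D.card : ℝ) - 1) ^ 2)
  obtain ⟨M₂, hM₂, hle₂⟩ := avg1 (by norm_num) hG (badCuts a b)
    (fun D => if (M₁ ∩ D).card = D.card then 1 / ((D.card : ℝ) - 1) else 0)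
  refine ⟨M₁, M₂, hM₁, hM₂, fun D hD hDM => ?_⟩
  obtain ⟨D₀, h1, h2, h3⟩ := exists_min (a := a) (b := b) (fun D => D ⊆ M₁ ∩ M₂)
    (fun D D' _ h4 h5 => h4.trans h5) ⟨D, hD, hDM⟩
  have h4 : D₀ ∈ badCuts a b := mem_badCuts.2 ⟨h1, ⟨M₁, hM₁, h2.trans inter_subset_left⟩, h3⟩
  have hcast : ((3 : ℕ) : ℝ) = 3 := by norm_num
  rw [hcast] at hle₁ hle₂
  -- facts on all bad cuts
  have hc : ∀ D ∈ badCuts a b, (3 : ℝ) ≤ D.card := by
    intro D hD
    exact_mod_cast (card_cut hG (mem_badCuts.1 hD).1).1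
  have hm₁ : ∀ D ∈ badCuts a b, (1 : ℝ) ≤ (M₁ ∩ D).card := by
    intro D hD
    exact_mod_cast (inter_odd hG hM₁ (mem_badCuts.1 hD).1).pos
  have hm₂ : ∀ D ∈ badCuts a b, (1 : ℝ) ≤ (M₂ ∩ D).card := by
    intro D hD
    exact_mod_cast (inter_odd hG hM₂ (mem_badCuts.1 hD).1).pos
  have e1 : ∑ D ∈ badCuts a b, ((D.card : ℝ) - 3) / ((D.card : ℝ) - 1) ^ 2 * ((D.card : ℝ) - 3)
      = ∑ D ∈ badCuts a b, (((D.card : ℝ) - 3) / (D.card - 1)) ^ 2 := by
    refine sum_congr rfl fun D _ => ?_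
    rw [div_pow]; ring
  rw [e1] at hle₁
  have e2 : ∑ D ∈ badCuts a b, (if (M₁ ∩ D).card = D.card then 1 / ((D.card : ℝ) - 1) else 0)
        * ((D.card : ℝ) - 3)
      ≤ ∑ D ∈ badCuts a b, ((D.card : ℝ) - 3) / ((D.card : ℝ) - 1) ^ 2
        * (((M₁ ∩ D).card : ℝ) - 1) := by
    refine sum_le_sum fun D hD => ?_
    have h5 := hc D hD
    have h6 := hm₁ D hD
    have h7 : (0 : ℝ) < (D.card : ℝ) - 1 := by linarith
    split_ifs with h8
    · rw [h8]
      apply le_of_eq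
      field_simp
    · rw [zero_mul]
      exact mul_nonneg (div_nonneg (by linarith) (by positivity)) (by linarith)
  have hnn : ∀ D ∈ badCuts a b, 0 ≤ (if (M₁ ∩ D).card = D.card then 1 / ((D.card : ℝ) - 1) else 0)
      * (((M₂ ∩ D).card : ℝ) - 1) := by
    intro D hD
    have h5 := hc D hD
    have h6 := hm₂ D hD
    have h7 : (0 : ℝ) < (D.card : ℝ) - 1 := by linarith
    refine mul_nonneg ?_ (by linarith)
    split_ifs
    · positivity
    · exact le_rfl
  have h5 := single_le_sum hnn h4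
  have h6 : (if (M₁ ∩ D₀).card = D₀.card then 1 / ((D₀.card : ℝ) - 1) else 0)
      * (((M₂ ∩ D₀).card : ℝ) - 1) = 1 := by
    rw [inter_eq_right.2 (h2.trans inter_subset_left), inter_eq_right.2 (h2.trans inter_subset_right),
      if_pos rfl]
    refine one_div_mul_cancel ?_
    have := hc D₀ h4
    intro h7
    linarith
  have h5' : 1 ≤ ∑ D ∈ badCuts a b,
      (if (M₁ ∩ D).card = D.card then 1 / ((D.card : ℝ) - 1) else 0)
      * (((M₂ ∩ D).card : ℝ) - 1) := le_of_eq_of_le h6.symm h5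
  linarith

/-- **Three perfect matchings** with empty intersection. -/
theorem three_pm {a b : E → V} (hG : RG 3 a b)
    (h : ∑ D ∈ badCuts a b, ((D.card : ℝ) - 3) / (D.card - 1) < 9) :
    ∃ M₁ M₂ M₃, PM a b M₁ ∧ PM a b M₂ ∧ PM a b M₃ ∧ M₁ ∩ M₂ ∩ M₃ = ∅ := by
  obtain ⟨M₁, hM₁, hle₁⟩ := avg1 (by norm_num) hG (badCuts a b)
    (fun D => if D.card = 3 then 3 else 1 / ((D.card : ℝ) - 1))
  obtain ⟨M₂, hM₂, hle₂⟩ := avg1 (by norm_num) hG (badCuts a b)
    (fun D => if D.card = 3 then 1 else if (M₁ ∩ D).card = D.card then 1 / ((D.card : ℝ) - 3)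
      else if (M₁ ∩ D).card + 2 = D.card then 1 / ((D.card : ℝ) - 1) else 0)
  set w : Finset E → ℝ := fun D => if D.card = 3 then 3 else 1 / ((D.card : ℝ) - 1) with hw
  set u : Finset E → ℝ := fun D => if D.card = 3 then 1 else
    if (M₁ ∩ D).card = D.card then 1 / ((D.card : ℝ) - 3)
      else if (M₁ ∩ D).card + 2 = D.card then 1 / ((D.card : ℝ) - 1) else 0 with hu
  have hcast : ((3 : ℕ) : ℝ) = 3 := by norm_num
  rw [hcast] at hle₁ hle₂
  have hc : ∀ D ∈ badCuts a b, (3 : ℝ) ≤ D.card := by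
    intro D hD
    exact_mod_cast (card_cut hG (mem_badCuts.1 hD).1).1
  have hc5 : ∀ D ∈ badCuts a b, D.card ≠ 3 → (5 : ℝ) ≤ D.card := by
    intro D hD h3
    obtain ⟨⟨k, hk⟩, -⟩ := bad_data hG hM₁ (mem_badCuts.1 hD).1
    have : 5 ≤ D.card := by omega
    exact_mod_cast this
  have hm₁ : ∀ D ∈ badCuts a b, (1 : ℝ) ≤ (M₁ ∩ D).card := by
    intro D hD
    exact_mod_cast (inter_odd hG hM₁ (mem_badCuts.1 hD).1).pos
  have hm₂ : ∀ D ∈ badCuts a b, (1 : ℝ) ≤ (M₂ ∩ D).card := by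
    intro D hD
    exact_mod_cast (inter_odd hG hM₂ (mem_badCuts.1 hD).1).pos
  have hw0 : ∀ D ∈ badCuts a b, 0 ≤ w D := by
    intro D hD
    have h5 := hc D hD
    simp only [hw]
    split_ifs
    · norm_num
    · exact div_nonneg zero_le_one (by linarith)
  have hu0 : ∀ D ∈ badCuts a b, 0 ≤ u D := by
    intro D hD
    have h5 := hc D hD
    simp only [hu]
    split_ifs
    · norm_num
    · exact div_nonneg zero_le_one (by linarith)
    · exact div_nonneg zero_le_one (by linarith)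
    · exact le_rfl
  have e1 : ∑ D ∈ badCuts a b, w D * ((D.card : ℝ) - 3)
      = ∑ D ∈ badCuts a b, ((D.card : ℝ) - 3) / (D.card - 1) := by
    refine sum_congr rfl fun D hD => ?_
    simp only [hw]
    split_ifs with h3
    · rw [h3]; norm_num
    · ring
  rw [e1] at hle₁
  have hS1 : ∑ D ∈ badCuts a b, w D * (((M₁ ∩ D).card : ℝ) - 1) < 3 := by linarith
  have hn1 : ∀ D ∈ badCuts a b, 0 ≤ w D * (((M₁ ∩ D).card : ℝ) - 1) := fun D hD =>
    mul_nonneg (hw0 D hD) (by linarith [hm₁ D hD])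
  have e2 : ∑ D ∈ badCuts a b, u D * ((D.card : ℝ) - 3)
      ≤ ∑ D ∈ badCuts a b, w D * (((M₁ ∩ D).card : ℝ) - 1) := by
    refine sum_le_sum fun D hD => ?_
    have h5 := hc D hD
    have h6 := hn1 D hD
    by_cases h3 : D.card = 3
    · have : u D * ((D.card : ℝ) - 3) = 0 := by rw [h3]; norm_num
      rw [this]; exact h6
    · have h7 := hc5 D hD h3
      have h8 : w D = 1 / ((D.card : ℝ) - 1) := by simp only [hw]; rw [if_neg h3]
      have h9 : (0 : ℝ) < (D.card : ℝ) - 1 := by linarith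
      have h10 : (0 : ℝ) < (D.card : ℝ) - 3 := by linarith
      simp only [hu]
      rw [if_neg h3]
      by_cases h11 : (M₁ ∩ D).card = D.card
      · rw [if_pos h11, h11, h8, one_div_mul_cancel h10.ne', one_div_mul_cancel h9.ne']
      · rw [if_neg h11]
        by_cases h12 : (M₁ ∩ D).card + 2 = D.card
        · rw [if_pos h12, h8]
          have h13 : ((M₁ ∩ D).card : ℝ) + 2 = D.card := by exact_mod_cast h12
          apply le_of_eq
          rw [← h13]; ring
        · rw [if_neg h12, zero_mul]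
          exact h6
  have hS2 : ∑ D ∈ badCuts a b, u D * (((M₂ ∩ D).card : ℝ) - 1) < 1 := by linarith
  have hn2 : ∀ D ∈ badCuts a b, 0 ≤ u D * (((M₂ ∩ D).card : ℝ) - 1) := fun D hD =>
    mul_nonneg (hu0 D hD) (by linarith [hm₂ D hD])
  -- no bad cut is nearly contained in both
  have key : ∀ D ∈ badCuts a b, (M₁ ∩ D).card + (M₂ ∩ D).card < 2 * D.card - 2 := by
    intro D hD
    have h1 : w D * (((M₁ ∩ D).card : ℝ) - 1) < 3 :=
      lt_of_le_of_lt (single_le_sum hn1 hD) hS1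
    have h2 : u D * (((M₂ ∩ D).card : ℝ) - 1) < 1 :=
      lt_of_le_of_lt (single_le_sum hn2 hD) hS2
    obtain ⟨⟨k, hk⟩, j₁, hj₁, hl₁⟩ := bad_data hG hM₁ (mem_badCuts.1 hD).1
    obtain ⟨-, j₂, hj₂, hl₂⟩ := bad_data hG hM₂ (mem_badCuts.1 hD).1
    by_cases h3 : D.card = 3
    · have h4 : w D = 3 := by simp only [hw]; rw [if_pos h3]
      have h5 : u D = 1 := by simp only [hu]; rw [if_pos h3]
      rw [h4] at h1
      rw [h5] at h2
      have h6 : ((M₁ ∩ D).card : ℝ) < 2 := by linarith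
      have h7 : ((M₂ ∩ D).card : ℝ) < 2 := by linarith
      have h6' : (M₁ ∩ D).card < 2 := by exact_mod_cast h6
      have h7' : (M₂ ∩ D).card < 2 := by exact_mod_cast h7
      omega
    · have h7 := hc5 D hD h3
      have h9 : (0 : ℝ) < (D.card : ℝ) - 1 := by linarith
      have h10 : (0 : ℝ) < (D.card : ℝ) - 3 := by linarith
      by_cases h11 : (M₁ ∩ D).card = D.card
      · have h5 : u D = 1 / ((D.card : ℝ) - 3) := by
          simp only [hu]; rw [if_neg h3, if_pos h11]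
        rw [h5, one_div, ← div_eq_inv_mul, div_lt_one h10] at h2
        have h12 : ((M₂ ∩ D).card : ℝ) + 2 < D.card := by linarith
        have h13 : (M₂ ∩ D).card + 2 < D.card := by exact_mod_cast h12
        omega
      · by_cases h12 : (M₁ ∩ D).card + 2 = D.card
        · have h5 : u D = 1 / ((D.card : ℝ) - 1) := by
            simp only [hu]; rw [if_neg h3, if_neg h11, if_pos h12]
          rw [h5, one_div, ← div_eq_inv_mul, div_lt_one h9] at h2
          have h13 : ((M₂ ∩ D).card : ℝ) < D.card := by linarith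
          have h14 : (M₂ ∩ D).card < D.card := by exact_mod_cast h13
          omega
        · omega
  -- the fractional perfect matching
  set y : E → ℝ := fun e => (2 - (if e ∈ M₁ then 1 else 0) - (if e ∈ M₂ then 1 else 0)) / 4 with hy
  have hy0 : ∀ e, 0 ≤ y e := by
    intro e
    simp only [hy]
    split_ifs <;> norm_num
  have hsum : ∀ D : Finset E, ∑ e ∈ D, y e
      = (2 * (D.card : ℝ) - (M₁ ∩ D).card - (M₂ ∩ D).card) / 4 := by
    intro D
    simp only [hy]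
    rw [← sum_div, sum_sub_distrib, sum_sub_distrib, sum_const, sum_boole, sum_boole, nsmul_eq_mul,
      filter_mem_eq_inter, filter_mem_eq_inter, inter_comm D M₁, inter_comm D M₂]
    ring
  have hcutd : ∀ X : Finset V, cut a b y X = ∑ e ∈ delta a b X, y e := fun X => rfl
  have hdeg : ∀ (M : Finset E), PM a b M → ∀ v, (M ∩ delta a b {v}).card = 1 := by
    intro M hM v
    have h1 := ((pm_iff hG.noloop M).1 hM).deg v
    have h2 : M ∩ delta a b {v} = M.filter (Cr a b {v}) := by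
      ext e
      simp [delta_eq]
    rw [h2]; exact h1
  have hFr : Fr a b y := by
    refine ⟨hy0, fun v => ?_, fun X hX => ?_⟩
    · rw [hcutd, hsum, hdeg M₁ hM₁ v, hdeg M₂ hM₂ v, delta_eq, ← filter_end hG.noloop, hG.reg v]
      norm_num
    · by_contra hlt
      push Not at hlt
      rw [hcutd] at hlt
      obtain ⟨D₀, h1, h2, h3⟩ := exists_min (a := a) (b := b) (fun D => ∑ e ∈ D, y e < 1)
        (fun D D' _ h4 h5 => lt_of_le_of_lt
          (sum_le_sum_of_subset_of_nonneg h4 fun e _ _ => hy0 e) h5) ⟨_, ⟨X, hX, rfl⟩, hlt⟩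
      have h2' : ∑ e ∈ D₀, y e < 1 := h2
      rw [hsum] at h2'
      obtain ⟨⟨k, hk⟩, j₁, hj₁, hl₁⟩ := bad_data hG hM₁ h1
      obtain ⟨-, j₂, hj₂, hl₂⟩ := bad_data hG hM₂ h1
      have h5 : 2 * (D₀.card : ℝ) < 4 + (M₁ ∩ D₀).card + (M₂ ∩ D₀).card := by linarith
      have h6 : 2 * D₀.card < 4 + (M₁ ∩ D₀).card + (M₂ ∩ D₀).card := by exact_mod_cast h5
      have h7 : (∃ M, PM a b M ∧ D₀ ⊆ M) := by
        by_cases h8 : (M₁ ∩ D₀).card = D₀.card
        · refine ⟨M₁, hM₁, ?_⟩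
          rw [← inter_eq_right]
          exact eq_of_subset_of_card_le inter_subset_right h8.ge
        · have h9 : (M₂ ∩ D₀).card = D₀.card := by omega
          refine ⟨M₂, hM₂, ?_⟩
          rw [← inter_eq_right]
          exact eq_of_subset_of_card_le inter_subset_right h9.ge
      have h8 := key D₀ (mem_badCuts.2 ⟨h1, h7, h3⟩)
      omega
  obtain ⟨M₃, hM₃, hpos⟩ := exists_pm hFr
  refine ⟨M₁, M₂, M₃, hM₁, hM₂, (pm_iff hG.noloop M₃).2 hM₃, ?_⟩
  rw [eq_empty_iff_forall_notMem]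
  intro e he
  rw [mem_inter, mem_inter] at he
  have h1 := hpos e he.2
  simp only [hy] at h1
  rw [if_pos he.1.1, if_pos he.1.2] at h1
  norm_num at h1

end Pool.Agent.TH467.OC
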